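import Pool.Agent.Lib.MP_db697d_lc.Sound

/-!
The equivariant map to dual numbers over a ring of integers.
-/

namespace Pool.Agent.Lib.MP_db697d_lc

open Finset Polynomial TrivSqZeroExt NumberField

/-- Apply a functional to the coefficients of a polynomial. -/
noncomputable def Psi (L : ℤ[X] →+ ℤ) (H : ℤ[X][X]) : ℤ[X] := H.sum fun i c => monomial i (L c)

theorem coeff_Psi (L : ℤ[X] →+ ℤ) (H : ℤ[X][X]) (i : ℕ) : (Psi L H).coeff i = L (H.coeff i) := by
  rw [Psi, Polynomial.sum_def, finsetSum_coeff]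
  simp only [coeff_monomial, sum_ite_eq', mem_support_iff]
  split_ifs with h
  · rfl
  · rw [not_not.1 h, map_zero]

theorem Psi_map_mul (L : ℤ[X] →+ ℤ) (q : ℤ[X]) (H : ℤ[X][X]) :
    Psi L (q.map C * H) = q * Psi L H := by
  ext i
  simp only [coeff_Psi, coeff_mul, map_sum, coeff_map]
  exact sum_congr rfl fun j _ => by rw [← smul_eq_C_mul, map_zsmul, smul_eq_mul]

theorem exists_quot (f : ℤ[X]) : ∃ h : ℤ[X][X], (X - C X) * h = f.map C - C f :=
  ⟨_, mul_divByMonic_eq_iff_isRoot.2 (by simp [eval_map, eval₂_C_X])⟩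

variable {A R : Type} [AddCommGroup A] [CommRing R] [Module R A] {t : Rˣ}

theorem exists_phi {O : Type} [CommRing O] {u : O} {f G : ℤ[X]} (hf : f.Monic)
    (hu : aeval u f = 0) (hu' : ∀ p : ℤ[X], p ≠ 0 → aeval u p = 0 → f.degree ≤ p.degree)
    (h1 : f ≠ 1) (l : A →+ ℤ) (hl : ∀ y, l (aeval (t : R) (f * (f * G)) • y) = 0)
    {w : A} (hw : l (aeval (t : R) (f * G) • w) ≠ 0) :
    ∃ φ : A →+ DualNumber O, (∀ y, φ ((t : R) • y) = (inl u + inr u) * φ y) ∧ (φ w).fst ≠ 0 := by
  obtain ⟨h, hh⟩ := exists_quot f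
  obtain ⟨h', hh'⟩ := exists_quot (f * G)
  let L : A → ℤ[X] →+ ℤ := fun y =>
    l.comp (((smulAddHom R A).flip y).comp (aeval (t : R)).toAddMonoidHom)
  have hL : ∀ y p, L y p = l (aeval (t : R) p • y) := fun _ _ => rfl
  set x : DualNumber O := inl u + inr u with hx
  have h2 : ∀ p : ℤ[X], (aeval x p).fst = aeval u p := fun p => by
    rw [← fstHom_apply (S := ℤ), ← aeval_algHom_apply]
    simp [hx]
  have h3 : aeval x (f * (f * G)) = 0 := by
    rw [← mul_assoc, map_mul, map_mul]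
    convert zero_mul _
    ext <;> simp [h2, hu]
  refine ⟨AddMonoidHom.mk' (fun y => aeval x (Psi (L y) (f.map C * h' + C (f * G) * h)))
    fun y z => ?_, fun y => ?_, ?_⟩
  · rw [← map_add]
    congr 1
    ext i
    simp [coeff_Psi, hL]
  · simp only [AddMonoidHom.mk'_apply]
    generalize hH : f.map C * h' + C (f * G) * h = H
    have h4 : C X * H = X.map C * H - (f * (f * G)).map C * 1 + C (f * (f * G)) := by
      rw [← hH, Polynomial.map_mul (p := f), C_mul (a := f) (b := f * G), map_X]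
      linear_combination -(f.map C) * hh' - C (f * G) * hh
    have h5 : Psi (L ((t : R) • y)) H = X * Psi (L y) H - (f * (f * G)) * Psi (L y) 1 := by
      rw [← Psi_map_mul, ← Psi_map_mul]
      ext i
      have h6 := congrArg (fun p => L y (coeff p i)) h4
      simp only [coeff_C_mul, coeff_add, coeff_sub, map_add, map_sub, coeff_C] at h6
      have h7 : ∀ c, L ((t : R) • y) c = L y (X * c) := fun c => by
        rw [hL, hL, map_mul, aeval_X, mul_comm, mul_smul]
      rw [coeff_sub, coeff_Psi, coeff_Psi, coeff_Psi, h7, h6]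
      split_ifs
      · rw [hL y (f * _), hl, add_zero]
      · rw [map_zero, add_zero]
    rw [h5, map_sub, map_mul, map_mul, h3, aeval_X, zero_mul, sub_zero]
  · have h4 : Psi (L w) (f.map C * h' + C (f * G) * h) =
        f * Psi (L w) h' + Psi (L (aeval (t : R) (f * G) • w)) h := by
      rw [← Psi_map_mul]
      ext i
      rw [coeff_add, coeff_Psi, coeff_Psi, coeff_Psi, coeff_add, map_add, coeff_C_mul, hL _ (_ * _),
        hL (_ • _), mul_comm (f * G), map_mul, mul_smul]
    have h5 : (f.map C - C f : ℤ[X][X]).degree = f.degree ∧ (f.map C - C f : ℤ[X][X]).Monic := by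
      have h6 : (C f : ℤ[X][X]).degree < (f.map C : ℤ[X][X]).degree := by
        rw [hf.degree_map]
        exact degree_C_le.trans_lt (hf.degree_pos.2 h1)
      exact ⟨by rw [degree_sub_eq_left_of_degree_lt h6, hf.degree_map],
        (hf.map C).sub_of_left h6⟩
    rw [← hh] at h5
    have h6 : h.Monic := (monic_X_sub_C X).of_mul_monic_left h5.2
    simp only [AddMonoidHom.mk'_apply]
    rw [h2, h4, map_add, map_mul, hu, zero_mul, zero_add]
    refine fun h7 => (hu' _ (fun h8 => hw ?_) h7).not_gt ?_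
    · have := coeff_Psi (L (aeval (t : R) (f * G) • w)) h h.natDegree
      rwa [h8, coeff_zero, h6.coeff_natDegree, hL, map_one, one_smul, eq_comm] at this
    · rw [← h5.1, mul_comm _ h, (monic_X_sub_C X).degree_mul, degree_X_sub_C,
        degree_eq_natDegree h6.ne_zero, ← Nat.cast_succ, degree_lt_iff_coeff_zero]
      intro m hm
      rw [coeff_Psi, coeff_eq_zero_of_natDegree_lt hm, map_zero]

theorem mulDef_of_phi {K : Type} [Field K] [NumberField K] {u : 𝓞 K} {f G : ℤ[X]}
    (hu : aeval u f = 0) (hF : (f ^ 2 * G).Monic) {w : A}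
    (hw' : aeval (t : R) (f ^ 2 * G) • w = 0) {φ : A →+ DualNumber (𝓞 K)}
    (hφ : ∀ y, φ ((t : R) • y) = (inl u + inr u) * φ y) (hw : (φ w).fst ≠ 0)
    {T : (Module.End ℤ A)ˣ} (ht : ∀ (n : ℤ) y, (T ^ n).1 y = (t ^ n).1 • y) : MulDef T := by
  have h0 : IsUnit u := by
    obtain ⟨r, h1, h2⟩ := Submodule.exists_sub_one_mem_and_smul_eq_zero_of_fg_of_le_smul
      (Ideal.span {u}) (Ideal.span (Set.range fun y => (φ y).fst)) (IsNoetherian.noetherian _)
      (Ideal.span_le.2 (by
        rintro _ ⟨y, rfl⟩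
        have h3 := congrArg fst (hφ ((t⁻¹ : Rˣ).1 • y))
        rw [smul_smul, Units.mul_inv, one_smul] at h3
        simp only [h3, fst_mul, fst_add, fst_inl, fst_inr, add_zero]
        exact Submodule.smul_mem_smul (Ideal.mem_span_singleton_self u)
          (Ideal.subset_span ⟨_, rfl⟩)))
    have h3 := h2 _ (Ideal.subset_span ⟨w, rfl⟩)
    rw [smul_eq_mul, mul_eq_zero, or_iff_left hw] at h3
    rw [h3, zero_sub, neg_mem_iff, Ideal.mem_span_singleton] at h1
    exact isUnit_of_dvd_one h1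
  obtain ⟨u, rfl⟩ := h0
  obtain ⟨x, hx⟩ : IsUnit (inl u.1 + inr u.1 : DualNumber (𝓞 K)) :=
    isUnit_iff_isUnit_fst.2 (by simp)
  have h1 : x.1.fst = u := by simp [hx]
  have h2 : x.1.snd = u := by simp [hx]
  rw [← hx] at hφ
  have h3 : ∀ (n : ℤ) y, φ ((t ^ n).1 • y) = (x ^ n).1 * φ y := by
    intro n
    induction n using Int.induction_on with
    | zero => simp
    | succ n ih =>
      intro y
      rw [zpow_add_one, zpow_add_one, Units.val_mul, Units.val_mul, mul_smul, ih, hφ, mul_assoc]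
    | pred n ih =>
      intro y
      rw [zpow_sub_one, zpow_sub_one, Units.val_mul, Units.val_mul, mul_smul, ih, mul_assoc,
        Units.mul_right_inj, Units.eq_inv_mul_iff_mul_eq, ← hφ, smul_smul, Units.mul_inv,
        one_smul]
  rcases em (∀ n : ℤ, n ≠ 0 → u ^ n ≠ 1) with h4 | h4
  · obtain ⟨L, r, h5⟩ := exists_good' u h4 (pow_ne_zero 2 hw)
    refine mulDef_of_good h1 h2 h3 ht hF hw' (fun y => ?_) h5
    suffices ∀ p : ℤ[X], (φ (aeval (t : R) p • y)).fst = aeval u.1 p * (φ y).fst by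
      rw [this, hu, zero_mul]
    intro p
    induction p using Polynomial.induction_on' with
    | add p q hp hq => simp [add_smul, hp, hq, add_mul]
    | monomial n c =>
      have h6 := h3 n y
      rw [zpow_natCast, zpow_natCast, Units.val_pow_eq_pow_val, Units.val_pow_eq_pow_val] at h6
      simp [aeval_monomial, mul_smul, Int.cast_smul_eq_zsmul, h6, h1, mul_assoc]
  · push Not at h4
    obtain ⟨n, hn, h4⟩ := h4
    obtain ⟨k, rfl | rfl⟩ := n.eq_nat_or_neg
    · exact mulDef_of_torsion h1 h2 h3 ht hw (r := k) (by omega) h4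
    · exact mulDef_of_torsion h1 h2 h3 ht hw (r := k) (by omega) (by simpa using h4)

theorem mulDef_of_not_squarefree [Module.Finite ℤ A] (T : (Module.End ℤ A)ˣ)
    (hT : ∀ p : ℤ[X], p.Monic → (∀ y, aeval T.1 p y ∈ Submodule.torsion ℤ A) →
      ¬ Squarefree (p.map (algebraMap ℤ ℚ))) : MulDef T := by
  classical
  obtain ⟨R, _, θ, t, h1⟩ : ∃ (R : Type) (_ : CommRing R) (θ : R →+* Module.End ℤ A) (t : Rˣ),
      Units.map θ.toMonoidHom t = T :=
    ⟨MonoidAlgebra ℤ (Multiplicative ℤ), inferInstance,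
      (MonoidAlgebra.lift ℤ _ _ ((Units.coeHom _).comp (zpowersHom _ T))).toRingHom,
      (MonoidAlgebra.of ℤ (Multiplicative ℤ)).toHomUnits (Multiplicative.ofAdd 1),
      Units.ext ((MonoidAlgebra.lift_of _ _).trans (by simp))⟩
  let : Module R A := Module.compHom A θ
  have ht : ∀ (n : ℤ) y, (T ^ n).1 y = (t ^ n).1 • y := fun n y => by
    rw [← h1, ← map_zpow]
    rfl
  have h2 : ∀ (p : ℤ[X]) y, aeval T.1 p y = aeval (t : R) p • y := fun p y => by
    induction p using Polynomial.induction_on' with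
    | add p q hp hq => simp [add_smul, hp, hq]
    | monomial n c =>
      have := ht n y
      rw [zpow_natCast, zpow_natCast, Units.val_pow_eq_pow_val, Units.val_pow_eq_pow_val] at this
      simp [aeval_monomial, mul_smul, Int.cast_smul_eq_zsmul, this]
  obtain ⟨F₀, hF₀, hF₀'⟩ := LinearMap.exists_monic_and_aeval_eq_zero ℤ T.1
  have h3 : ∃ n, ∃ F : ℤ[X], F.natDegree = n ∧ F.Monic ∧
      ∀ (l : A →+ ℤ) y, l (aeval (t : R) F • y) = 0 :=
    ⟨_, F₀, rfl, hF₀, fun l y => by rw [← h2, hF₀', LinearMap.zero_apply, map_zero]⟩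
  obtain ⟨F, hF, hF', hF''⟩ := Nat.find_spec h3
  have h4 := hT F hF' fun y => by
    rw [← Submodule.Quotient.mk_eq_zero, ← Module.forall_dual_apply_eq_zero_iff ℤ, h2]
    exact fun l => hF'' (l ∘ₗ (Submodule.torsion ℤ A).mkQ).toAddMonoidHom y
  rw [squarefree_iff_no_irreducibles (hF'.map _).ne_zero] at h4
  push Not at h4
  obtain ⟨g, hg, hg'⟩ := h4
  obtain ⟨K, _, _, a, h5⟩ : ∃ (K : Type) (_ : Field K) (_ : NumberField K) (a : K),
      aeval a g = 0 := by
    have := Fact.mk hg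
    refine ⟨AdjoinRoot g, inferInstance, inferInstance, AdjoinRoot.root g, ?_⟩
    rw [aeval_def, Subsingleton.elim (algebraMap _ _) (AdjoinRoot.of g)]
    exact AdjoinRoot.eval₂_root g
  have h6 : IsIntegral ℤ a := ⟨F, hF', by
    rw [← aeval_def, ← aeval_map_algebraMap ℚ]
    exact aeval_eq_zero_of_dvd_aeval_eq_zero ((dvd_mul_left g g).trans hg') h5⟩
  set f := minpoly ℤ a with hf
  have h7 : minpoly ℚ a = f.map (algebraMap ℤ ℚ) :=
    minpoly.isIntegrallyClosed_eq_field_fractions' ℚ h6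
  have h8 : f.Monic := minpoly.monic h6
  have h9 : f.map (algebraMap ℤ ℚ) ∣ g := h7 ▸ minpoly.dvd ℚ _ h5
  obtain ⟨G, rfl⟩ : f * f ∣ F := by
    rw [← map_dvd_map (algebraMap ℤ ℚ) (algebraMap ℤ ℚ).injective_int (h8.mul h8),
      Polynomial.map_mul]
    exact (mul_dvd_mul h9 h9).trans hg'
  rw [mul_assoc] at hF hF' hF''
  have h10 : f ≠ 1 := minpoly.ne_one _ _
  have h11 := Nat.find_min h3 (m := (f * G).natDegree) (by
    rw [← hF, h8.natDegree_mul (h8.of_mul_monic_left hF')]
    have := h8.natDegree_pos.2 h10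
    omega)
  push Not at h11
  obtain ⟨l, w, hw⟩ := h11 _ rfl (h8.of_mul_monic_left hF')
  let u : 𝓞 K := ⟨_, h6⟩
  have h12 : ∀ p : ℤ[X], aeval u p = 0 ↔ aeval a p = 0 := fun p => by
    rw [← map_eq_zero_iff _ (RingOfIntegers.coe_injective (K := K)),
      ← aeval_algebraMap_apply]
    rfl
  have h13 : aeval u f = 0 := (h12 f).2 (minpoly.aeval ℤ _)
  obtain ⟨φ, hφ, hφ'⟩ := exists_phi h8 h13 (fun p hp hp' =>
    minpoly.IsIntegrallyClosed.degree_le_of_ne_zero hp ((h12 p).1 hp')) h10 l (hF'' l) hw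
  exact mulDef_of_phi h13 ((h8.pow 2).mul hF₀)
    (by rw [map_mul, mul_smul, ← h2 F₀, hF₀', LinearMap.zero_apply, smul_zero]) hφ hφ' ht

end Pool.Agent.Lib.MP_db697d_lc
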