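import Mathlib

/-!
Elementary number theory for the Baumslag-Solitar groups `BS(1,n)`.
-/

namespace Pool.Agent.Lib.MP_db697d_lc

open Finset

theorem exists_prime_not_one {F M : ℕ} (hF : F ≠ 0) (h : ¬ F ≡ 1 [MOD M]) :
    ∃ q, q.Prime ∧ q ∣ F ∧ ¬ q ≡ 1 [MOD M] := by
  induction F using Nat.recOnMul with
  | zero => exact absurd rfl hF
  | one => exact absurd (Nat.ModEq.refl 1) h
  | prime q hq => exact ⟨q, hq, dvd_rfl, h⟩
  | mul a b iha ihb =>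
    by_cases h1 : a ≡ 1 [MOD M]
    · obtain ⟨q, h2, h3, h4⟩ := ihb (right_ne_zero_of_mul hF) fun h2 => h (h1.mul h2)
      exact ⟨q, h2, h3.mul_left a, h4⟩
    · obtain ⟨q, h2, h3, h4⟩ := iha (left_ne_zero_of_mul hF) h1
      exact ⟨q, h2, h3.mul_right b, h4⟩

theorem geom_eq (n : ℕ) {l : ℕ} (hl : 2 ≤ l) : ∃ s, ∑ i ∈ range l, n ^ i = 1 + n + n ^ 2 * s := by
  induction l, hl using Nat.le_induction with
  | base => exact ⟨0, by simp [sum_range_succ]⟩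
  | succ l hl ih =>
    obtain ⟨s, hs⟩ := ih
    obtain ⟨k, rfl⟩ := Nat.exists_eq_add_of_le hl
    exact ⟨s + n ^ k, by rw [sum_range_succ, hs]; ring⟩

theorem bad_prime {n p v l : ℕ} (h2 : p ^ (v + 1) ∣ n ^ 2) (h3 : ¬ p ^ (v + 1) ∣ n)
    (hl : l.Prime) (h4 : ¬ (l : ℤ) ∣ n - 1) :
    ∃ q : ℕ, q.Prime ∧ ¬ q ∣ n ∧ orderOf (n : ZMod q) = l ∧ ¬ p ^ (v + 1) ∣ q - 1 := by
  obtain ⟨s, hs⟩ := geom_eq n hl.two_le
  obtain ⟨q, hq, h5, h6⟩ := exists_prime_not_one (F := ∑ i ∈ range l, n ^ i) (M := p ^ (v + 1))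
    (by omega) fun h => h3 (by
      have h7 := (Nat.modEq_iff_dvd' (by omega)).1 h.symm
      rw [hs, add_assoc, Nat.add_sub_cancel_left] at h7
      exact (Nat.dvd_add_left (h2.mul_right s)).1 h7)
  have := Fact.mk hq
  have := Fact.mk hl
  have h7 : ∑ i ∈ range l, (n : ZMod q) ^ i = 0 := by
    have := (ZMod.natCast_eq_zero_iff _ _).2 h5
    push_cast at this
    exact this
  refine ⟨q, hq, fun h => ?_, orderOf_eq_prime ?_ fun h => h4 ?_,
    fun h => h6 ((Nat.modEq_iff_dvd' hq.one_le).2 h).symm⟩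
  · rw [hs, add_assoc] at h5
    exact hq.one_lt.ne' (Nat.dvd_one.1 ((Nat.dvd_add_left
      (h.add ((h.pow two_ne_zero).mul_right s))).1 h5))
  · rw [← sub_eq_zero, ← mul_geom_sum, h7, mul_zero]
  · simp only [h, one_pow, sum_const, card_range, nsmul_eq_mul, mul_one,
      ZMod.natCast_eq_zero_iff] at h7
    rw [← (Nat.prime_dvd_prime_iff_eq hq hl).1 h7, ← ZMod.intCast_zmod_eq_zero_iff_dvd]
    push_cast
    rw [h, sub_self]

theorem psi_root {q p v : ℕ} (hq : q.Prime) (hp : p.Prime) (hqp : ¬ q ∣ p) (J : ZMod q)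
    (h : ∑ i ∈ range p, (J ^ p ^ v) ^ i = 0) : p ^ (v + 1) ∣ q - 1 := by
  have := Fact.mk hq
  have := Fact.mk hp
  have h1 : J ^ p ^ (v + 1) = 1 := by
    rw [pow_succ, pow_mul, ← sub_eq_zero, ← mul_geom_sum, h, mul_zero]
  have h2 : ¬ J ^ p ^ v = 1 := fun h2 => hqp (by
    simpa only [h2, one_pow, sum_const, card_range, nsmul_eq_mul, mul_one,
      ZMod.natCast_eq_zero_iff] using h)
  rw [← orderOf_eq_prime_pow h2 h1]
  refine ZMod.orderOf_dvd_card_sub_one fun h3 => ?_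
  rw [h3, zero_pow (pow_ne_zero _ hp.ne_zero)] at h1
  exact zero_ne_one h1

theorem dvd_geom_sub {R : Type} [CommRing R] (p e : ℕ) (a b : R) :
    a - b ∣ ∑ i ∈ range p, (a ^ e) ^ i - ∑ i ∈ range p, (b ^ e) ^ i := by
  rw [← sum_sub_distrib]
  exact dvd_sum fun i _ => by
    rw [← pow_mul, ← pow_mul]
    exact sub_dvd_pow_sub_pow a b _

theorem crt_psi {p : ℕ} (hp : p ≠ 0) (v : ℕ) {w : ℤ} (hw : (p : ℤ) ∣ w) (r : ℕ) :
    ∃ k : ℤ, w ^ (p ^ r * p ^ v) - 1 ∣ (w ^ p ^ v - 1) * ∑ i ∈ range p, (k ^ p ^ v) ^ i := by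
  induction r with
  | zero => exact ⟨0, by simp⟩
  | succ r ih =>
    obtain ⟨k, hk⟩ := ih
    set A := w ^ (p ^ r * p ^ v) - 1 with hA
    set B := ∑ i ∈ range p, ((w ^ p ^ r) ^ p ^ v) ^ i with hB
    have h1 : w ^ (p ^ (r + 1) * p ^ v) - 1 = A * B := by
      rw [hA, hB, ← pow_mul, mul_geom_sum, ← pow_mul]
      congr 2
      ring
    have h2 : IsCoprime A B := by
      obtain ⟨c, hc⟩ : A ∣ B - p := by
        have := dvd_geom_sub p 1 (w ^ (p ^ r * p ^ v)) 1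
        simpa [hB, ← pow_mul] using this
      obtain ⟨d, hd⟩ : (p : ℤ) ∣ A + 1 := by
        rw [hA, sub_add_cancel]
        exact hw.pow (mul_ne_zero (pow_ne_zero _ hp) (pow_ne_zero _ hp))
      exact ⟨-1 - c * d, d, by linear_combination d * hc - hd⟩
    obtain ⟨a, b, hab⟩ := h2
    refine ⟨a * A * w ^ p ^ r + b * B * k, ?_⟩
    rw [h1]
    refine IsCoprime.mul_dvd ⟨a, b, hab⟩ ?_ (Dvd.dvd.mul_left ?_ _)
    · have h3 : A ∣ a * A * w ^ p ^ r + b * B * k - k :=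
        ⟨a * (w ^ p ^ r - k), by linear_combination k * hab⟩
      have h4 := (h3.trans (dvd_geom_sub p (p ^ v) _ k)).mul_left (w ^ p ^ v - 1)
      rw [mul_sub] at h4
      exact (dvd_sub_left hk).1 h4
    · have h3 : B ∣ a * A * w ^ p ^ r + b * B * k - w ^ p ^ r :=
        ⟨b * (k - w ^ p ^ r), by linear_combination w ^ p ^ r * hab⟩
      exact (dvd_sub_left dvd_rfl).1 (h3.trans (dvd_geom_sub p (p ^ v) _ _))

theorem dvd_of_pow_sub_one_dvd {b a m : ℕ} (hb : 2 ≤ b) (h : (b : ℤ) ^ a - 1 ∣ b ^ m - 1) :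
    a ∣ m := by
  have h1 : b ^ a - 1 ∣ b ^ m - 1 := by
    have h2 := Nat.one_le_pow a b (by omega)
    have h3 := Nat.one_le_pow m b (by omega)
    rw [← Int.natCast_dvd_natCast]
    push_cast [h2, h3]
    exact h
  have h2 := Nat.pow_sub_one_gcd_pow_sub_one b a m
  rw [Nat.gcd_eq_left h1] at h2
  have h3 := Nat.one_le_pow a b (by omega)
  have h4 := Nat.one_le_pow (a.gcd m) b (by omega)
  have h5 : a = a.gcd m := Nat.pow_right_injective hb (by simp only; omega)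
  exact h5 ▸ Nat.gcd_dvd_right a m

theorem pow_eq_of_primes {p a m : ℕ} (hp : p.Prime) (ha : a ≠ 0) (hm : m ≠ 0)
    (h4 : (p : ℤ) ^ 4 - 1 ∣ (p : ℤ) ^ a - 1) (h1 : (p : ℤ) ^ a - 1 ∣ p ^ m - 1)
    (h2 : ∀ q : ℕ, q.Prime → (q : ℤ) ∣ p ^ m - 1 → (q : ℤ) ∣ p ^ a - 1) : m = a := by
  obtain ⟨e, rfl⟩ := dvd_of_pow_sub_one_dvd hp.two_le h1
  by_contra h
  obtain ⟨l, hl, c, rfl⟩ := Nat.exists_prime_and_dvd (n := e) (by rintro rfl; simp at h)
  have h5 : 2 ≤ p ^ a := hp.two_le.trans (Nat.le_self_pow ha p)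
  have h6 : ∀ q : ℕ, q.Prime → q ∣ ∑ i ∈ range l, (p ^ a) ^ i →
      q = l ∧ (q : ℤ) ∣ p ^ a - 1 := fun q hq h6 => by
    have h7 : (q : ℤ) ∣ ∑ i ∈ range l, ((p : ℤ) ^ a) ^ i := by exact_mod_cast h6
    have h8 := h2 q hq (h7.trans ((Dvd.intro_left _ (mul_geom_sum _ l)).trans (by
      rw [← pow_mul, ← mul_assoc, pow_mul _ (a * l)]
      simpa using sub_dvd_pow_sub_pow ((p : ℤ) ^ (a * l)) 1 c)))
    have h9 := h8.trans (dvd_geom_sub l 1 ((p : ℤ) ^ a) 1)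
    simp only [pow_one, one_pow, sum_const, card_range, nsmul_eq_mul, mul_one] at h9
    exact ⟨(Nat.prime_dvd_prime_iff_eq hq hl).1
      (Int.natCast_dvd_natCast.1 ((dvd_sub_right h7).1 h9)), h8⟩
  have h7 : l < ∑ i ∈ range l, (p ^ a) ^ i := by
    obtain ⟨k, hk⟩ := Nat.exists_eq_add_of_le hl.two_le
    rw [hk, add_comm 2 k, sum_range_succ', sum_range_succ']
    have := card_nsmul_le_sum (range k) (fun i => (p ^ a) ^ (i + 1 + 1)) 1
      fun i _ => Nat.one_le_pow _ _ (by omega)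
    simp only [card_range, smul_eq_mul, mul_one, zero_add, pow_one, pow_zero] at this ⊢
    omega
  generalize hS : ∑ i ∈ range l, (p ^ a) ^ i = S at h6 h7
  have h8 := Nat.eq_prime_pow_of_unique_prime_dvd (n := S) (p := l) (by omega)
    fun hq h => (h6 _ hq h).1
  generalize S.primeFactorsList.length = j at h8
  have h9 : l ^ 2 ∣ S := by
    rw [h8]
    refine pow_dvd_pow l ?_
    by_contra h9
    have : l ^ j ≤ l ^ 1 := Nat.pow_le_pow_right hl.pos (by omega)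
    rw [pow_one] at this
    omega
  obtain ⟨b, hb⟩ := (h6 l hl ((dvd_pow_self l two_ne_zero).trans h9)).2
  have h10 : (l : ℤ) ^ 2 ∣ ∑ i ∈ range l, ((p : ℤ) ^ a) ^ i := by
    rw [← hS] at h9
    exact_mod_cast h9
  rcases hl.eq_two_or_odd' with rfl | hl'
  · obtain ⟨d, hd⟩ := h10
    obtain ⟨f, hf⟩ := h4
    simp only [sum_range_succ, range_zero, sum_empty, pow_zero, pow_one, Nat.cast_ofNat] at hd hb
    rcases Int.even_or_odd' (p : ℤ) with ⟨g, hg | hg⟩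
    · obtain ⟨a, rfl⟩ := Nat.exists_eq_succ_of_ne_zero ha
      rw [pow_succ, hg] at hb
      have : (1 : ℤ) = 2 * ((2 * g) ^ a * g - b) := by linear_combination -hb
      omega
    · have : (2 : ℤ) = 4 * (d - (4 * g ^ 4 + 8 * g ^ 3 + 6 * g ^ 2 + 2 * g) * f) := by
        generalize (p : ℤ) ^ a = V at hd hf
        rw [hg] at hf
        linear_combination hd - hf
      omega
  · have h11 := odd_sq_dvd_geom_sum₂_sub (R := ℤ) 1 b hl'
    simp only [one_pow, mul_one, show 1 + (l : ℤ) * b = p ^ a by linear_combination -hb] at h11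
    have h12 : (l : ℤ) ^ 2 ∣ l := (dvd_sub_right h10).1 h11
    have h13 := Nat.le_of_dvd hl.pos (Int.natCast_dvd_natCast.1 (by exact_mod_cast h12) : l ^ 2 ∣ l)
    nlinarith [hl.two_le]

theorem not_dvd_pow_add_one {p : ℕ} (hp : 2 ≤ p) (a : ℕ) :
    ¬ (p : ℤ) ^ 4 - 1 ∣ (p : ℤ) ^ a + 1 := by
  intro h
  have h1 : (p : ℤ) ^ 4 - 1 ∣ ((p : ℤ) ^ 4) ^ (a / 4) - 1 := by
    simpa using sub_dvd_pow_sub_pow ((p : ℤ) ^ 4) 1 (a / 4)
  have h2 : (p : ℤ) ^ 4 - 1 ∣ (p : ℤ) ^ (a % 4) + 1 := by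
    have h3 := h.sub (h1.mul_right ((p : ℤ) ^ (a % 4)))
    rw [sub_mul, ← pow_mul, ← pow_add, Nat.div_add_mod] at h3
    rwa [show (p : ℤ) ^ a + 1 - (p ^ a - 1 * p ^ (a % 4)) = p ^ (a % 4) + 1 by ring] at h3
  have h3 : (2 : ℤ) ≤ p := by exact_mod_cast hp
  have h4 := Int.le_of_dvd (by positivity) h2
  have h5 : (p : ℤ) ^ (a % 4) ≤ p ^ 3 := pow_le_pow_right₀ (by omega) (by omega)
  have h6 : (2 : ℤ) ^ 3 ≤ p ^ 3 := pow_le_pow_left₀ (by omega) h3 3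
  nlinarith

end Pool.Agent.Lib.MP_db697d_lc
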