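import Pool.Agent.Lib.MP_db697d_lc.Calc
import Pool.Agent.Lib.MP_db697d_lc.BSArith

/-!
Multiplication of exponents is definable for the module `ℤ[1/n]` with `T` acting as `n`.
-/

namespace Pool.Agent.Lib.MP_db697d_lc

open Finset Polynomial

variable {R : Type} [CommRing R]

/-- The element `u ^ k - 1`. -/
def D (u : Rˣ) (k : ℤ) : R := (u ^ k : Rˣ) - 1

theorem ratio (u : Rˣ) (z k : ℤ) : ∃ J s : R, D u z * J = D u (z * k) ∧ J = k + D u z * s := by
  have h0 : ∀ k : ℤ, D u (z * (k + 1)) = (D u z + 1) * D u (z * k) + D u z := fun k => by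
    simp only [D, mul_add, mul_one, zpow_add, Units.val_mul]
    ring
  induction k using Int.induction_on with
  | zero => exact ⟨0, 0, by simp [D], by simp⟩
  | succ k ih =>
    obtain ⟨J, s, h1, h2⟩ := ih
    exact ⟨(D u z + 1) * J + 1, J + s, by rw [h0, ← h1]; ring, by
      push_cast at h2 ⊢; linear_combination h2⟩
  | pred k ih =>
    obtain ⟨J, s, h1, h2⟩ := ih
    have h3 := h0 (-k - 1)
    have h4 : ((u ^ (-z) : Rˣ) : R) * (D u z + 1) = 1 := by simp [D, ← Units.val_mul]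
    rw [sub_add_cancel] at h3
    refine ⟨(u ^ (-z) : Rˣ) * (J - 1), s - (u ^ (-z) : Rˣ) * (J - 1), ?_, ?_⟩
    · linear_combination (u ^ (-z) : Rˣ) * h1 + (u ^ (-z) : Rˣ) * h3 + D u (z * (-k - 1)) * h4
    · push_cast at h2 ⊢
      linear_combination h2 + (J - 1) * h4

variable {n : ℕ} {u : Rˣ} (hu : (u : R) = n) {T : (Module.End ℤ R)ˣ}
  (ht : ∀ (k : ℤ) y, (T ^ k).1 y = (u ^ k : Rˣ) * y)

include hu in
theorem D_nat (k : ℕ) : D u k = (n : R) ^ k - 1 := by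
  rw [D, zpow_natCast, Units.val_pow_eq_pow_val, hu]

include hu in
theorem D_assoc (k : ℤ) : Associated (D u k) ((n : R) ^ k.natAbs - 1) := by
  rw [← D_nat hu]
  rcases Int.natAbs_eq k with h | h
  · rw [← h]
  · refine ⟨-u ^ (k.natAbs : ℤ), ?_⟩
    have h1 : ((u ^ k : Rˣ) : R) * (u ^ (k.natAbs : ℤ) : Rˣ) = 1 := by
      rw [← Units.val_mul, ← zpow_add, show k + k.natAbs = 0 by omega, zpow_zero, Units.val_one]
    simp only [D, Units.val_neg]
    linear_combination -h1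

include ht in
theorem MTm.D {α : Type} {e : (α → ℤ × R) → ℤ} {m : (α → ℤ × R) → R} (he : ETm e)
    (hm : MTm T m) : MTm T fun v => D u (e v) * m v :=
  ((MTm.act he hm).sub hm).of_eq fun _ => by rw [ht, MP_db697d_lc.D, sub_mul, one_mul]

include ht in
theorem def_poly [IsDomain R] (f : ℤ[X]) : ∃ Rl : ℤ → ℤ → R → Prop,
    (∀ {α : Type} {z y : (α → ℤ × R) → ℤ} {m : (α → ℤ × R) → R}, ETm z → ETm y → MTm T m →
      Def T fun v => Rl (z v) (y v) (m v)) ∧
    ∀ z y J, D u z * J = D u y →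
      Rl z y (aeval J f) ∧ (D u z ≠ 0 → ∀ m, Rl z y m → m = aeval J f) := by
  induction f using Polynomial.induction_on with
  | C a => exact ⟨fun _ _ m => m = a, fun _ _ hm => Def.meq hm (.const _), fun _ _ _ _ => by simp⟩
  | add f g hf hg =>
    obtain ⟨P, h1, h2⟩ := hf
    obtain ⟨Q, h3, h4⟩ := hg
    refine ⟨fun z y m => ∃ m', P z y m' ∧ Q z y (m - m'), fun hz hy hm =>
      Def.exM ((h1 hz.lift hy.lift (.var none)).and
        (h3 hz.lift hy.lift (hm.lift.sub (.var none)))), fun z y J h =>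
      ⟨⟨_, (h2 z y J h).1, by simpa using (h4 z y J h).1⟩, fun h5 m ⟨m', h6, h7⟩ => ?_⟩⟩
    rw [map_add, ← (h2 z y J h).2 h5 _ h6, ← (h4 z y J h).2 h5 _ h7, add_sub_cancel]
  | monomial k a hf =>
    obtain ⟨P, h1, h2⟩ := hf
    have h3 : ∀ J : R, aeval J (C a * X ^ (k + 1)) = J * aeval J (C a * X ^ k) := fun J => by
      simp only [map_mul, map_pow, aeval_X]
      ring
    refine ⟨fun z y m => ∃ m', P z y m' ∧ D u z * m = D u y * m', fun hz hy hm =>
      Def.exM ((h1 hz.lift hy.lift (.var none)).and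
        (Def.meq (hm.lift.D ht hz.lift) ((MTm.var none).D ht hy.lift))), fun z y J h =>
      ⟨⟨_, (h2 z y J h).1, by rw [h3, ← mul_assoc, h]⟩, fun h5 m ⟨m', h6, h7⟩ => ?_⟩⟩
    rw [h3, ← (h2 z y J h).2 h5 _ h6]
    exact mul_left_cancel₀ h5 (by rw [h7, ← mul_assoc, h])

variable [IsDomain R] [CharZero R] (hn : 2 ≤ n)
  (hφ : ∀ M : ℕ, n.Coprime M → Nonempty (R →+* ZMod M))

include hu hn

omit [IsDomain R] in
theorem D_ne {k : ℤ} (hk : k ≠ 0) : D u k ≠ 0 := fun h => by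
  have h1 := (D_assoc hu k).eq_zero_iff.1 h
  have h2 : n ^ k.natAbs = 1 := by exact_mod_cast sub_eq_zero.1 h1
  have := Nat.one_lt_pow (Int.natAbs_ne_zero.2 hk) hn
  omega

include hφ

omit [IsDomain R] in
theorem dvd_of_D {x y : ℤ} (h : D u x ∣ D u y) : x ∣ y := by
  by_cases hx : x = 0
  · by_contra h1
    refine D_ne hu hn (k := y) (fun h2 => h1 (h2 ▸ dvd_zero x)) ?_
    simpa [hx, D] using h
  have h1 := Nat.one_le_pow x.natAbs n (by omega)
  obtain ⟨φ⟩ := hφ (n ^ x.natAbs - 1) (Nat.Coprime.coprime_dvd_left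
    (dvd_pow_self n (Int.natAbs_ne_zero.2 hx)) ((Nat.coprime_self_sub_right h1).2 (by simp)))
  have h2 := map_dvd φ ((D_assoc hu x).symm.dvd.trans (h.trans (D_assoc hu y).dvd))
  have h3 : ((n : ZMod (n ^ x.natAbs - 1)) ^ x.natAbs - 1) = 0 := by
    have := ZMod.natCast_self (n ^ x.natAbs - 1)
    rwa [Nat.cast_sub h1, Nat.cast_pow, Nat.cast_one] at this
  simp only [map_sub, map_pow, map_natCast, map_one, h3, zero_dvd_iff] at h2
  refine Int.natAbs_dvd_natAbs.1 (dvd_of_pow_sub_one_dvd hn ?_)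
  have h4 := (ZMod.intCast_zmod_eq_zero_iff_dvd ((n : ℤ) ^ y.natAbs - 1) _).1 (by
    push_cast; exact h2)
  rwa [Nat.cast_sub h1, Nat.cast_pow, Nat.cast_one] at h4

include ht

omit [IsDomain R] in
theorem def_dvd {α : Type} {a b : (α → ℤ × R) → ℤ} (ha : ETm a) (hb : ETm b) :
    Def T fun v => a v ∣ b v :=
  (Def.exM (P := fun m v => D u (a v) * m = D u (b v) * 1)
    (Def.meq ((MTm.var none).D ht ha.lift) ((MTm.const 1).D ht hb.lift))).of_iff fun v =>
    ⟨fun ⟨m, h⟩ => dvd_of_D hu hn hφ ⟨m, by rw [h, mul_one]⟩, fun ⟨c, h⟩ => by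
      obtain ⟨J, -, h1, -⟩ := ratio u (a v) c
      exact ⟨J, by rw [h1, h, mul_one]⟩⟩

theorem exists_test {p v : ℕ} (hp : p.Prime) (h1 : p ∣ n) (h2 : p ^ (v + 1) ∣ n ^ 2)
    (h3 : ¬ p ^ (v + 1) ∣ n) : ∃ S : ℤ → ℤ → Prop,
    (∀ {α : Type} {z x : (α → ℤ × R) → ℤ}, ETm z → ETm x → Def T fun v => S (z v) (x v)) ∧
    (∀ x r : ℕ, x ≠ 0 → S (x * p ^ r) x) ∧
    ∀ z x, S z x → z ≠ 0 → ∀ l : ℕ, l.Prime → (l : ℤ) ∣ z → (l : ℤ) ∣ p * x * (n - 1) := by
  obtain ⟨P, h4, h5⟩ := def_poly ht (∑ i ∈ range p, (X ^ p ^ v) ^ i)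
  simp only [map_sum, map_pow, aeval_X] at h5
  refine ⟨fun z x => ∃ y, ∃ J m m' : R, D u ((p ^ v : ℕ) * z) * J = D u y * 1 ∧
    P ((p ^ v : ℕ) * z) y m ∧ D u ((p ^ v : ℕ) * x) * m = D u ((p ^ v : ℕ) * z) * m',
    fun hz hx => ?_, fun x r hx => ?_, ?_⟩
  · have hz := hz.lift.lift.lift.lift.cmul (p ^ v)
    exact Def.exE (Def.exM (Def.exM (Def.exM
      ((Def.meq ((MTm.var (some (some none))).D ht hz)
        ((MTm.const 1).D ht (.var (some (some (some none)))))).and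
      ((h4 hz (.var (some (some (some none)))) (.var (some none))).and
      (Def.meq ((MTm.var (some none)).D ht (hx.lift.lift.lift.lift.cmul (p ^ v)))
        ((MTm.var none).D ht hz)))))))
  · obtain ⟨k, c, hk⟩ := crt_psi hp.ne_zero v (w := (n : ℤ) ^ x)
      ((Int.natCast_dvd_natCast.2 h1).pow hx) r
    obtain ⟨J, s, h6, h7⟩ := ratio u ((p ^ v : ℕ) * (x * p ^ r)) k
    obtain ⟨b, hb⟩ := (Dvd.intro s (eq_sub_of_add_eq' h7.symm)).trans (dvd_geom_sub p (p ^ v) J k)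
    refine ⟨_, J, _, c + D u ((p ^ v : ℕ) * x) * b, by rw [h6, mul_one], (h5 _ _ J h6).1, ?_⟩
    have h8 := congrArg (Int.cast : ℤ → R) hk
    have h9 : D u ((p ^ v : ℕ) * x) = ((n : R) ^ x) ^ p ^ v - 1 := by
      rw [← Nat.cast_mul, D_nat hu, mul_comm, pow_mul]
    have h10 : D u ((p ^ v : ℕ) * (x * p ^ r)) = ((n : R) ^ x) ^ (p ^ r * p ^ v) - 1 := by
      rw [← Nat.cast_pow, ← Nat.cast_mul, ← Nat.cast_mul, D_nat hu, ← pow_mul]
      congr 2
      ring
    push_cast at h8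
    rw [← h9, ← h10] at h8
    linear_combination h8 + D u ((p ^ v : ℕ) * x) * hb
  · rintro z x ⟨y, J, m, m', h6, h7, h8⟩ hz l hl h9
    by_contra h10
    obtain ⟨q, hq, h11, h12, h13⟩ := bad_prime h2 h3 hl fun h => h10 (h.mul_left _)
    obtain ⟨φ⟩ := hφ q ((Nat.Prime.coprime_iff_not_dvd hq).2 h11).symm
    have := Fact.mk hq
    have h14 : ∀ k, φ (D u k) = 0 ↔ (l : ℤ) ∣ k := fun k => by
      rw [← h12, ← map_natCast φ, ← hu, show φ u = (Units.map φ.toMonoidHom u : ZMod q) from rfl,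
        orderOf_units, orderOf_dvd_iff_zpow_eq_one, ← map_zpow, Units.ext_iff, D, map_sub, map_one,
        sub_eq_zero]
      rfl
    rw [mul_one] at h6
    rw [(h5 _ _ J h6).2 (D_ne hu hn (mul_ne_zero (by simp [hp.ne_zero]) hz)) m h7] at h8
    have h15 := congrArg φ h8
    rw [map_mul, map_mul, (h14 _).2 (h9.mul_left _), zero_mul, mul_eq_zero, h14] at h15
    have h16 := Nat.prime_iff_prime_int.1 hl
    rcases h15 with h15 | h15
    · rcases h16.dvd_or_dvd h15 with h | h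
      · rw [Nat.cast_pow] at h
        exact h10 (((h16.dvd_of_dvd_pow h).mul_right _).mul_right _)
      · exact h10 ((h.mul_left _).mul_right _)
    · simp only [map_sum, map_pow] at h15
      exact h13 (psi_root hq hp (fun h => h11 (h.trans h1)) _ h15)

theorem def_sq_pow {p v : ℕ} (hp : p.Prime) (h1 : p ∣ n) (h2 : p ^ (v + 1) ∣ n ^ 2)
    (h3 : ¬ p ^ (v + 1) ∣ n) {α : Type} {Q W : (α → ℤ × R) → ℤ} (hQ : ETm Q) (hW : ETm W) :
    Def T fun x => (∃ a : ℕ, a ≠ 0 ∧ Q x = p ^ a) ∧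
      ((p : ℤ) ^ 4 - 1) * (n - 1) ∣ Q x - 1 ∧ W x = Q x ^ 2 := by
  obtain ⟨S, h4, h5, h6⟩ := exists_test hu ht hn hφ hp h1 h2 h3
  have hd := @def_dvd _ _ _ _ hu _ ht _ hn hφ α
  have hp' := Nat.prime_iff_prime_int.1 hp
  set N := ((p : ℤ) ^ 4 - 1) * (n - 1) with hN
  have h7 : ∀ z : ℤ, S z 1 → N ∣ z - 1 → ∃ a : ℕ, z = p ^ a := fun z h h' => by
    have h8 : (p : ℤ) ^ 4 - 1 ∣ z - 1 := (dvd_mul_right _ _).trans h'
    have h9 : z ≠ 0 := by
      rintro rfl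
      exact not_dvd_pow_add_one hp.two_le 0
        (by simpa [one_add_one_eq_two] using h8.mul_left (-2))
    have h10 := Nat.eq_prime_pow_of_unique_prime_dvd (n := z.natAbs) (p := p)
      (Int.natAbs_ne_zero.2 h9) fun {l} hl h10 => by
        have h11 := Int.natCast_dvd.2 h10
        have h12 := Nat.prime_iff_prime_int.1 hl
        rcases h12.dvd_or_dvd (h6 z 1 h h9 l hl h11) with h13 | h13
        · rw [mul_one] at h13
          exact (Nat.prime_dvd_prime_iff_eq hl hp).1 (Int.natCast_dvd_natCast.1 h13)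
        · exact absurd ((dvd_sub_right h11).1 (h13.trans ((dvd_mul_left _ _).trans h')))
            h12.not_dvd_one
    generalize z.natAbs.primeFactorsList.length = a at h10
    rcases Int.natAbs_eq z with h11 | h11
    · exact ⟨a, by rw [h11, h10, Nat.cast_pow]⟩
    · refine absurd ?_ (not_dvd_pow_add_one hp.two_le a)
      rw [h11, h10, Nat.cast_pow, ← neg_add', dvd_neg] at h8
      exact h8
  refine (((h4 hQ (.const 1)).and (hd (.const N) (hQ.sub (.const 1)))).and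
    (((h4 hW (.const 1)).and (hd (.const N) (hW.sub (.const 1)))).and
    ((hd (.const p) hQ).and ((hd (hQ.cmul p) hW).and
    ((hd (hQ.sub (.const 1)) (hW.sub hQ)).and (h4 (hW.sub hQ) (hQ.sub (.const 1)))))))).of_iff
    fun x => ?_
  generalize Q x = Q, W x = W
  constructor
  · rintro ⟨⟨h8, h9⟩, ⟨h10, h11⟩, h12, h13, h14, h15⟩
    obtain ⟨a, rfl⟩ := h7 Q h8 h9
    obtain ⟨b, rfl⟩ := h7 W h10 h11
    have ha : a ≠ 0 := by
      rintro rfl
      exact hp'.not_dvd_one (by simpa using h12)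
    rw [← pow_succ', pow_dvd_pow_iff hp'.ne_zero hp'.not_isUnit] at h13
    obtain ⟨m, rfl⟩ := Nat.exists_eq_add_of_le (Nat.le_of_succ_le h13)
    have hm : m ≠ 0 := by omega
    have h16 : (p : ℤ) ^ (a + m) - p ^ a = p ^ a * (p ^ m - 1) := by ring
    have h17 : ∀ k : ℕ, k ≠ 0 → ¬ (p : ℤ) ∣ p ^ k - 1 := fun k hk h =>
      hp'.not_dvd_one ((dvd_sub_right (dvd_pow_self _ hk)).1 h)
    rw [h16] at h14 h15
    refine ⟨⟨a, ha, rfl⟩, h9, ?_⟩
    rw [pow_eq_of_primes hp ha hm ((dvd_mul_right _ _).trans h9)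
      (((hp'.irreducible.coprime_iff_not_dvd.2 (h17 a ha)).symm.pow_right).dvd_of_dvd_mul_left h14)
      fun q hq h => ?_, pow_add, sq]
    have h18 := Nat.prime_iff_prime_int.1 hq
    rcases h18.dvd_or_dvd (h6 _ _ h15 (mul_ne_zero (pow_ne_zero _ hp'.ne_zero)
      fun h => h17 m hm (h ▸ dvd_zero _)) q hq (h.mul_left _)) with h19 | h19
    · refine (h18.dvd_or_dvd h19).resolve_left fun h20 => h17 m hm ?_
      rwa [← (Nat.prime_dvd_prime_iff_eq hq hp).1 (Int.natCast_dvd_natCast.1 h20)] at h ⊢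
    · exact h19.trans ((dvd_mul_left _ _).trans h9)
  · rintro ⟨⟨a, ha, rfl⟩, h8, rfl⟩
    have h9 := Nat.one_lt_pow ha hp.one_lt
    refine ⟨⟨by simpa using h5 1 a one_ne_zero, h8⟩,
      ⟨by simpa [pow_mul] using h5 1 (a * 2) one_ne_zero, h8.trans ⟨p ^ a + 1, by ring⟩⟩,
      dvd_pow_self _ ha, ?_, ⟨p ^ a, by ring⟩, ?_⟩
    · rw [sq]
      exact mul_dvd_mul_right (dvd_pow_self _ ha) _
    · convert h5 (p ^ a - 1) a (by omega) using 1
      · push_cast [h9.le]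
        ring
      · push_cast [h9.le]
        rfl

theorem mulDef_bs : MulDef T := by
  obtain ⟨p, hp, h1⟩ := Nat.exists_prime_and_dvd (n := n) (by omega)
  obtain ⟨v, m, h2, h3⟩ := Nat.exists_eq_pow_mul_and_not_dvd (n := n) (by omega) p hp.ne_one
  have hv : v ≠ 0 := by
    rintro rfl
    exact h2 (by simpa [h3] using h1)
  have hS := @def_sq_pow _ _ _ _ hu _ ht _ _ hn hφ p v hp h1
    (by rw [h3, mul_pow, ← pow_mul]; exact (pow_dvd_pow p (by omega)).mul_right _)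
    (by rw [h3, pow_succ]; exact fun h => h2 (Nat.dvd_of_mul_dvd_mul_left (pow_pos hp.pos v) h))
  have hd := @def_dvd _ _ _ _ hu _ ht _ hn hφ
  have hp' := Nat.prime_iff_prime_int.1 hp
  have hp2 : (2 : ℤ) ≤ p := by exact_mod_cast hp.two_le
  set N := ((p : ℤ) ^ 4 - 1) * (n - 1) with hN
  have h4 : ∀ {α : Type} {x z : (α → ℤ × R) → ℤ}, ETm x → ETm z →
      Def T fun v => z v = x v ^ 2 := fun {α x z} hx hz => by
    have hx := hx.lift.lift.lift
    have hz := hz.lift.lift.lift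
    have h5 : ETm fun v : Option (Option (Option α)) → ℤ × R => (v (some (some none))).1 - 1 :=
      (ETm.var _).sub (.const 1)
    refine (Def.exE (P := fun Q v => ∃ Q' Q'' : ℤ,
      ((∃ a : ℕ, a ≠ 0 ∧ Q = p ^ a) ∧ N ∣ Q - 1 ∧ Q' = Q ^ 2) ∧
      ((∃ a : ℕ, a ≠ 0 ∧ Q' = p ^ a) ∧ N ∣ Q' - 1 ∧ Q'' = Q' ^ 2) ∧
      p * x v + 1 ∣ Q - 1 ∧ p * z v + 1 ∣ Q - 1 ∧ Q' - x v ∣ Q'' - z v) (Def.exE (Def.exE
      ((hS (.var (some (some none))) (.var (some none))).and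
      ((hS (.var (some none)) (.var none)).and
      ((hd ((hx.cmul p).add (.const 1)) h5).and ((hd ((hz.cmul p).add (.const 1)) h5).and
      (hd ((ETm.var (some none)).sub hx) ((ETm.var none).sub hz))))))))).of_iff fun v => ?_
    generalize x v = x, z v = z
    constructor
    · rintro ⟨Q, _, _, ⟨⟨a, ha, h6⟩, -, rfl⟩, ⟨-, -, rfl⟩, h7, h8, h9⟩
      have h10 : 2 ≤ Q := h6 ▸ hp2.trans (le_self_pow₀ (by omega) ha)
      have h11 : ∀ y : ℤ, p * y + 1 ∣ Q - 1 → -Q ≤ 2 * y ∧ 2 * y ≤ Q := fun y h => by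
        have := abs_le.1 (Int.le_of_dvd (by omega) ((abs_dvd _ _).2 h))
        constructor <;> by_contra! h12 <;> nlinarith
      obtain ⟨h12, h13⟩ := h11 x h7
      obtain ⟨h14, h15⟩ := h11 z h8
      have h16 : Q ^ 2 - x ∣ x ^ 2 - z := by
        have := h9.sub (Dvd.intro (Q ^ 2 + x) rfl)
        rwa [show (Q ^ 2) ^ 2 - z - (Q ^ 2 - x) * (Q ^ 2 + x) = x ^ 2 - z by ring] at this
      have h17 := Int.eq_zero_of_abs_lt_dvd h16 (abs_lt.2 ⟨by nlinarith, by nlinarith⟩)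
      omega
    · rintro rfl
      set M := N * (p * x + 1) * (p * x ^ 2 + 1) with hM
      have h6 : ¬ (p : ℤ) ∣ M := fun h => by
        have h7 : ∀ y : ℤ, ¬ (p : ℤ) ∣ p * y + 1 := fun y h =>
          hp'.not_dvd_one ((dvd_add_right (dvd_mul_right _ _)).1 h)
        rcases hp'.dvd_or_dvd ((hp'.dvd_or_dvd ((hp'.dvd_or_dvd h).resolve_right
          (h7 _))).resolve_right (h7 _)) with h | h
        · exact hp'.not_dvd_one ((dvd_sub_right (dvd_pow_self _ four_ne_zero)).1 h)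
        · exact hp'.not_dvd_one ((dvd_sub_right (Int.natCast_dvd_natCast.2 h1)).1 h)
      have h7 : M.natAbs ≠ 0 := Int.natAbs_ne_zero.2 fun h => h6 (h ▸ dvd_zero _)
      have h8 : M ∣ (p : ℤ) ^ M.natAbs.totient - 1 := by
        have := (Nat.ModEq.pow_totient (hp.coprime_iff_not_dvd.2 fun h =>
          h6 (Int.natCast_dvd.2 h))).symm.dvd
        push_cast at this
        exact (abs_dvd _ _).1 this
      have h9 := (Nat.totient_pos.2 (Nat.pos_of_ne_zero h7)).ne'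
      generalize M.natAbs.totient = a at h8 h9
      have h10 : N ∣ (p : ℤ) ^ a - 1 := ((dvd_mul_right _ _).mul_right _).trans h8
      exact ⟨p ^ a, _, _, ⟨⟨a, h9, rfl⟩, h10, rfl⟩,
        ⟨⟨a * 2, by omega, by rw [pow_mul]⟩, h10.trans ⟨p ^ a + 1, by ring⟩, rfl⟩,
        ((dvd_mul_left _ _).mul_right _).trans h8, (dvd_mul_left _ _).trans h8,
        ⟨(p ^ a) ^ 2 + x, by ring⟩⟩
  intro α a b c ha hb hc
  refine (Def.exE (P := fun s v => s = (a v - b v) ^ 2 ∧ s + (4 : ℕ) * c v = (a v + b v) ^ 2)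
    ((h4 (ha.sub hb).lift (.var none)).and
      (h4 (ha.add hb).lift ((ETm.var none).add (hc.lift.cmul 4))))).of_iff fun v => ?_
  constructor
  · rintro ⟨_, rfl, h⟩
    push_cast at h
    nlinarith
  · intro h
    exact ⟨_, rfl, by rw [← h]; push_cast; ring⟩

end Pool.Agent.Lib.MP_db697d_lc
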