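import Pool.Agent.Lib.MP_db697d_lc.Group
import Pool.Agent.Lib.MP_db697d_lc.BSDef

/-!
The Diophantine problem of a group generated by `a`, `t` with `t a t⁻¹ = a ^ n`, `2 ≤ |n|` and `a`
of infinite order is undecidable.
-/

namespace Pool.Agent.Lib.MP_db697d_lc

variable {G : Type} [Group G]

theorem conj_pow_bs {a s : G} {m : ℤ} (h : s * a * s⁻¹ = a ^ m) (k : ℕ) (x : ℤ) :
    s ^ k * a ^ x * (s ^ k)⁻¹ = a ^ (x * m ^ k) := by
  induction k with
  | zero => simp
  | succ k ih =>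
    rw [pow_succ', mul_inv_rev, ← mul_assoc, mul_assoc s, mul_assoc s, ih, ← conj_zpow, h,
      ← zpow_mul]
    congr 1
    ring

theorem exists_away {m : ℕ} (hm : 2 ≤ m) : ∃ (R : Type) (_ : CommRing R) (_ : IsDomain R)
    (_ : CharZero R) (u : Rˣ), (u : R) = m ∧ (∀ M : ℕ, m.Coprime M → Nonempty (R →+* ZMod M)) ∧
      ∀ z : R, ∃ (k : ℕ) (x : ℤ), z * (m : R) ^ k = x := by
  have hm0 : Submonoid.powers (m : ℤ) ≤ nonZeroDivisors ℤ :=
    powers_le_nonZeroDivisors_of_noZeroDivisors (by omega)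
  let R := Localization.Away (m : ℤ)
  obtain ⟨u, hu⟩ := IsLocalization.Away.algebraMap_isUnit (S := R) (m : ℤ)
  refine ⟨R, inferInstance, IsLocalization.isDomain_localization hm0,
    ⟨fun x y e => Nat.cast_injective (R := ℤ)
      (IsLocalization.injective R hm0 (by simpa using e))⟩, u, by simpa using hu,
    fun M hM => ⟨IsLocalization.Away.lift (m : ℤ) (g := Int.castRingHom (ZMod M))
      (by simpa using (ZMod.isUnit_iff_coprime m M).2 hM)⟩, fun z => ?_⟩
  simpa using IsLocalization.Away.surj (m : ℤ) z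

theorem undecidable_bs (a t : G) (n : ℤ) (hn : 2 ≤ |n|) (hG : Subgroup.closure {a, t} = ⊤)
    (h : t * a * t⁻¹ = a ^ n) (ha : ¬ IsOfFinOrder a) {k : ℕ} {π : FreeGroup (Fin k) →* G}
    (hπ : Function.Surjective π) : ¬ ComputablePred (DP π) := by
  intro hD
  obtain ⟨m, hm⟩ : ∃ m : ℕ, (m : ℤ) = n ^ 2 := ⟨n.natAbs ^ 2, by simp⟩
  have hm2 : 2 ≤ m := by
    have : (2 : ℤ) ≤ m := by rw [hm, ← sq_abs]; nlinarith
    exact_mod_cast this
  obtain ⟨R, _, _, _, u, hu, hφ, hx⟩ := exists_away hm2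
  have hinj : Function.Injective (Int.cast : ℤ → R) := Int.cast_injective
  let T : (Module.End ℤ R)ˣ := Units.map (Algebra.lmul ℤ R).toRingHom.toMonoidHom u
  have hT : ∀ (k : ℤ) y, (T ^ k).1 y = (u ^ k : Rˣ) * y := fun k y => by
    rw [← map_zpow]
    rfl
  obtain ⟨P, hP, hP'⟩ := (mulDef_bs hu hT hm2 hφ).undecidable
  have h1 : t ^ 2 * a * (t ^ 2)⁻¹ = a ^ (m : ℤ) := by
    simpa [hm] using conj_pow_bs h 2 1
  have h2 := conj_pow_bs h1
  set s := t ^ 2 with hs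
  choose e x hx using hx
  have h3 : ∀ (k j : ℕ) (y : ℤ), (s ^ k)⁻¹ * a ^ y * s ^ k =
      (s ^ (j + k))⁻¹ * a ^ (y * m ^ j) * s ^ (j + k) := fun k j y => by
    rw [← h2, pow_add]
    group
  obtain ⟨ι, h4⟩ : ∃ ι : R → G, ∀ z (k : ℕ) (y : ℤ), z * (m : R) ^ k = y →
      ι z = (s ^ k)⁻¹ * a ^ y * s ^ k :=
    ⟨fun z => (s ^ e z)⁻¹ * a ^ x z * s ^ e z, fun z k y hz => by
      have h5 : x z * m ^ k = y * m ^ e z := hinj (by
        push_cast
        rw [← hx, ← hz]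
        ring)
      rw [h3 k (e z), ← h5, add_comm]
      exact h3 _ _ _⟩
  have h5 : ∀ z z' : R, ∃ (k : ℕ) (y y' : ℤ), z * (m : R) ^ k = y ∧ z' * (m : R) ^ k = y' :=
    fun z z' => ⟨e z + e z', x z * m ^ e z', x z' * m ^ e z, by
      push_cast; rw [← hx]; ring, by push_cast; rw [← hx]; ring⟩
  have h6 : ∀ z z', ι (z + z') = ι z * ι z' := fun z z' => by
    obtain ⟨k, y, y', h6, h7⟩ := h5 z z'
    rw [h4 _ k y h6, h4 _ k y' h7, h4 _ k (y + y') (by rw [add_mul, h6, h7, Int.cast_add]),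
      zpow_add]
    group
  have h7 : Function.Injective ι := fun z z' hz => by
    obtain ⟨k, y, y', h6, h7⟩ := h5 z z'
    rw [h4 _ k y h6, h4 _ k y' h7, mul_left_inj, mul_right_inj,
      (injective_zpow_iff_not_isOfFinOrder.2 ha).eq_iff] at hz
    exact mul_right_cancel₀ (pow_ne_zero k (hu ▸ u.ne_zero)) (by rw [h6, h7, hz])
  have h8 : ∀ z, ι (n * z) = t * ι z * t⁻¹ := fun z => by
    have h8 := conj_pow_bs h 1 (x z)
    rw [pow_one, pow_one] at h8
    rw [h4 _ (e z) (x z * n) (by push_cast; rw [← hx]; ring), ← h8, h4 _ _ _ (hx z), hs]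
    group
  have h9 : ∀ z, ι (T.1 z) = s * ι z * s⁻¹ := fun z => by
    have h9 := hT 1 z
    rw [zpow_one, zpow_one, hu, ← Int.cast_natCast m, hm, Int.cast_pow, sq, mul_assoc] at h9
    rw [h9, h8, h8, hs, sq, mul_inv_rev]
    simp only [mul_assoc]
  have h10 : ι 1 = a := by simpa using h4 1 0 1 (by simp)
  let f : Multiplicative R →* G := MonoidHom.mk' (fun z => ι z.toAdd) fun _ _ => h6 _ _
  have h11 : ∀ z z', ι z * ι z' = ι z' * ι z := fun z z' => by rw [← h6, add_comm, h6]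
  have h12 : ∀ (j : ℤ) z, ∃ z', t ^ j * ι z * (t ^ j)⁻¹ = ι z' := fun j z => by
    induction j using Int.induction_on with
    | zero => exact ⟨z, by simp⟩
    | succ j ih =>
      obtain ⟨z', h12⟩ := ih
      exact ⟨n * z', by rw [h8, ← h12]; group⟩
    | pred j ih =>
      obtain ⟨z', h12⟩ := ih
      have h13 := rep_zpow h9 (-1) z'
      exact ⟨n * (T ^ (-1 : ℤ)).1 z', by rw [h8, h13, ← h12, hs]; group⟩
  have h13 : ∀ g : G, ∃ (j : ℤ) (z : R), g = ι z * t ^ j := fun g => by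
    have hg : g ∈ Subgroup.closure {a, t} := hG ▸ Subgroup.mem_top g
    induction hg using Subgroup.closure_induction with
    | mem g hg =>
      rcases hg with rfl | rfl
      · exact ⟨0, 1, by simp [h10]⟩
      · exact ⟨1, 0, by simp [show ι 0 = 1 from f.map_one]⟩
    | one => exact ⟨0, 0, by simp [show ι 0 = 1 from f.map_one]⟩
    | mul g g' _ _ ih ih' =>
      obtain ⟨j, z, rfl⟩ := ih
      obtain ⟨j', z', rfl⟩ := ih'
      obtain ⟨w, hw⟩ := h12 j z'
      exact ⟨j + j', z + w, by rw [h6, ← hw]; group⟩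
    | inv g _ ih =>
      obtain ⟨j, z, rfl⟩ := ih
      obtain ⟨w, hw⟩ := h12 (-j) (-z)
      refine ⟨-j, w, ?_⟩
      rw [← hw, show ι (-z) = (ι z)⁻¹ from f.map_inv (Multiplicative.ofAdd z)]
      group
  have h14 : ∀ (j : ℤ) z, Rep T ι ((ι z * t ^ j) ^ 2) j := fun j z y => by
    obtain ⟨w, hw⟩ := h12 j y
    obtain ⟨w', hw'⟩ := h12 j w
    have h14 : ∀ y w, t ^ j * ι y * (t ^ j)⁻¹ = ι w →
        ι z * t ^ j * ι y * (ι z * t ^ j)⁻¹ = ι w := fun y w hw => by
      rw [← mul_inv_cancel_right (ι w) (ι z), h11 w z, ← hw]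
      group
    have h15 := h14 w w' hw'
    rw [← h14 y w hw] at h15
    rw [← hw] at hw'
    rw [rep_zpow h9, sq]
    generalize ι z * t ^ j = g at h15
    calc _ = ι w' := by rw [← hw', hs]; group
      _ = _ := by rw [← h15]; group
  obtain ⟨Q, h15, h16⟩ := hP.ed hπ h7 h6 h9 (H := fun g => ∃ x, g = x ^ 2)
    (.ex (.eq (.var _) ((Wd.var none).pow 2)))
    (by
      rintro _ ⟨g, rfl⟩
      obtain ⟨j, z, rfl⟩ := h13 g
      exact ⟨j, h14 j z⟩)
    (fun j => ⟨t ^ j, by rw [hs]; group⟩)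
    ((ED.eq ((Wd.var ()).mul (.const hπ a)) ((Wd.const hπ a).mul (.var ()))).of_iff fun g =>
      ⟨fun hg => by
        obtain ⟨j, z, hz⟩ := h13 (g ())
        have h15 := h14 j z 1
        rw [← hz, h10, sq, mul_assoc (g ()), hg, ← mul_assoc, hg, mul_assoc a,
          mul_inv_cancel_right, ← h10, h7.eq_iff, hT, mul_one] at h15
        have h16 : j = 0 := by
          by_contra h16
          exact D_ne hu hm2 h16 (sub_eq_zero.2 h15)
        exact ⟨z, by rw [hz, h16, zpow_zero, mul_one]⟩,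
      fun ⟨z, hz⟩ => by rw [← hz, ← h10, h11]⟩)
  refine hP' (((h15.subst (σ := fun (v : Unit → G) p => bif p.2 then 1 else v ())
    ?_).computable hπ hD s).of_eq fun k => h16 (fun _ => (k, 0)) _ fun _ => ⟨?_, ?_⟩)
  · rintro ⟨_, _ | _⟩
    exacts [.var _, .const hπ 1]
  · exact zpow_natCast s k ▸ rep_zpow h9 k
  · exact f.map_one.symm

end Pool.Agent.Lib.MP_db697d_lc
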