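import Pool.Agent.Lib.MP_db697d_lc.Itf
import Pool.Agent.Shared.DPRM.Main

/-!
Closure properties of definable relations; Diophantine sets are definable as soon as
multiplication of exponents is.
-/

namespace Pool.Agent.Lib.MP_db697d_lc

variable {A : Type} [AddCommGroup A] {T : (Module.End ℤ A)ˣ} {α β : Type}

omit [AddCommGroup A] in
theorem ETm.of_eq {e f : (α → ℤ × A) → ℤ} (h : ETm e) (h' : ∀ v, e v = f v) : ETm f :=
  (funext h' : e = f) ▸ h

theorem MTm.of_eq {e f : (α → ℤ × A) → A} (h : MTm T e) (h' : ∀ v, e v = f v) : MTm T f :=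
  (funext h' : e = f) ▸ h

omit [AddCommGroup A] in
theorem ETm.subst {e : (α → ℤ × A) → ℤ} (h : ETm e) {σ : (β → ℤ × A) → α → ℤ × A}
    (hσ : ∀ i, ETm fun v => (σ v i).1) : ETm fun v => e (σ v) := by
  induction h with
  | var i => exact hσ i
  | const n => exact .const n
  | add _ _ h h' => exact h.add h'
  | neg _ h => exact h.neg

theorem MTm.subst {m : (α → ℤ × A) → A} (h : MTm T m) {σ : (β → ℤ × A) → α → ℤ × A}
    (hσ : ∀ i, ETm fun v => (σ v i).1) (hσ' : ∀ i, MTm T fun v => (σ v i).2) :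
    MTm T fun v => m (σ v) := by
  induction h with
  | var i => exact hσ' i
  | const n => exact .const n
  | add _ _ h h' => exact h.add h'
  | neg _ h => exact h.neg
  | act he _ h => exact .act (he.subst hσ) h

omit [AddCommGroup A] in
theorem ETm.lift {e : (α → ℤ × A) → ℤ} (h : ETm e) :
    ETm fun v : Option α → ℤ × A => e fun i => v (some i) :=
  h.subst fun i => .var (some i)

theorem MTm.lift {m : (α → ℤ × A) → A} (h : MTm T m) :
    MTm T fun v : Option α → ℤ × A => m fun i => v (some i) :=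
  h.subst (fun i => .var (some i)) fun i => .var (some i)

theorem Def.subst {P : (α → ℤ × A) → Prop} (h : Def T P) {β : Type}
    {σ : (β → ℤ × A) → α → ℤ × A}
    (hσ : ∀ i, ETm fun v => (σ v i).1) (hσ' : ∀ i, MTm T fun v => (σ v i).2) :
    Def T fun v => P (σ v) := by
  induction h generalizing β with
  | eq h => exact .eq (h.subst hσ hσ')
  | and _ _ h h' => exact (h hσ hσ').and (h' hσ hσ')
  | or _ _ h h' => exact (h hσ hσ').or (h' hσ hσ')
  | ex _ h =>
    exact Def.ex (h (σ := fun v o => o.elim (v none) (σ fun i => v (some i)))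
      (fun o => o.rec (.var none) fun i => (hσ i).lift)
      fun o => o.rec (.var none) fun i => (hσ' i).lift)
  | of_iff _ e h => exact (h hσ hσ').of_iff fun v => e _

theorem Def.exE {P : ℤ → (α → ℤ × A) → Prop}
    (h : Def T fun v : Option α → ℤ × A => P (v none).1 fun i => v (some i)) :
    Def T fun v => ∃ n, P n v :=
  h.ex.of_iff fun _ => ⟨fun ⟨x, h⟩ => ⟨x.1, h⟩, fun ⟨n, h⟩ => ⟨(n, 0), h⟩⟩

theorem Def.exM {P : A → (α → ℤ × A) → Prop}
    (h : Def T fun v : Option α → ℤ × A => P (v none).2 fun i => v (some i)) :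
    Def T fun v => ∃ y, P y v :=
  h.ex.of_iff fun _ => ⟨fun ⟨x, h⟩ => ⟨x.2, h⟩, fun ⟨y, h⟩ => ⟨(0, y), h⟩⟩

theorem Def.all {ι : Type} (s : Finset ι) {P : ι → (α → ℤ × A) → Prop} (h : ∀ i, Def T (P i)) :
    Def T fun v => ∀ i ∈ s, P i v := by
  classical
  induction s using Finset.induction_on with
  | empty => exact (Def.eq (.const 0)).of_iff (by simp)
  | insert i s _ ih => exact ((h i).and ih).of_iff (by simp)

theorem Def.exs (s : Finset α) {P : (α → ℤ × A) → Prop} (h : Def T P) :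
    Def T fun v => ∃ x, (∀ i ∉ s, x i = v i) ∧ P x := by
  classical
  induction s using Finset.induction_on with
  | empty =>
    exact h.of_iff fun v => ⟨fun h => ⟨v, by simp, h⟩, fun ⟨x, h, h'⟩ => by
      rwa [← show x = v from funext fun i => h i (by simp)]⟩
  | insert j s _ ih =>
    refine (ih.subst (σ := fun (v : Option α → ℤ × A) i => v (if i = j then none else some i))
      (fun i => .var _) fun i => .var _).ex.of_iff fun v => ⟨?_, ?_⟩
    · rintro ⟨a, x, h, h'⟩
      refine ⟨x, fun i hi => ?_, h'⟩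
      rw [Finset.mem_insert, not_or] at hi
      simpa [hi.1] using h i hi.2
    · rintro ⟨x, h, h'⟩
      refine ⟨x j, x, fun i hi => ?_, h'⟩
      by_cases e : i = j
      · simp [e]
      · simpa [e] using h i (by simp [e, hi])

omit [AddCommGroup A] in
theorem ETm.sub {e f : (α → ℤ × A) → ℤ} (h : ETm e) (h' : ETm f) : ETm fun v => e v - f v :=
  (h.add h'.neg).of_eq fun _ => (sub_eq_add_neg _ _).symm

omit [AddCommGroup A] in
theorem ETm.cmul (n : ℕ) {e : (α → ℤ × A) → ℤ} (h : ETm e) : ETm fun v => n * e v := by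
  induction n with
  | zero => exact (ETm.const 0).of_eq (by simp)
  | succ n ih => exact (ih.add h).of_eq fun v => by push_cast; ring

theorem MTm.sub {e f : (α → ℤ × A) → A} (h : MTm T e) (h' : MTm T f) :
    MTm T fun v => e v - f v :=
  (h.add h'.neg).of_eq fun _ => (sub_eq_add_neg _ _).symm

theorem Def.meq {e f : (α → ℤ × A) → A} (h : MTm T e) (h' : MTm T f) :
    Def T fun v => e v = f v :=
  (Def.eq (h.sub h')).of_iff fun _ => sub_eq_zero

/-- Multiplication of exponents is definable. -/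
def MulDef (T : (Module.End ℤ A)ˣ) : Prop :=
  ∀ ⦃α : Type⦄ ⦃a b c : (α → ℤ × A) → ℤ⦄, ETm a → ETm b → ETm c → Def T fun v => a v * b v = c v

theorem MulDef.eq (hm : MulDef T) {a c : (α → ℤ × A) → ℤ} (ha : ETm a) (hc : ETm c) :
    Def T fun v => a v = c v :=
  (hm ha (.const 1) hc).of_iff (by simp)

theorem MulDef.nonneg (hm : MulDef T) {e : (α → ℤ × A) → ℤ} (he : ETm e) :
    Def T fun v => 0 ≤ e v := by
  have h1 : ∀ {α : Type} {e : (α → ℤ × A) → ℤ}, ETm e → Def T fun v => ∃ a, a * a = e v :=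
    fun he => Def.exE (hm (.var none) (.var none) he.lift)
  have h2 : ∀ {α : Type} {e : (α → ℤ × A) → ℤ}, ETm e →
      Def T fun v => ∃ s, (∃ a, a * a = s) ∧ ∃ a, a * a = e v - s :=
    fun he => Def.exE ((h1 (.var none)).and (h1 (he.lift.sub (.var none))))
  have h3 : Def T fun v => ∃ t, (∃ s, (∃ a, a * a = s) ∧ ∃ a, a * a = t - s) ∧
      ∃ s, (∃ a, a * a = s) ∧ ∃ a, a * a = e v - t - s :=
    Def.exE ((h2 (.var none)).and (h2 (he.lift.sub (.var none))))
  refine h3.of_iff fun v => ⟨?_, fun h => ?_⟩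
  · rintro ⟨t, ⟨s, ⟨a, ha⟩, b, hb⟩, s', ⟨c, hc⟩, d, hd⟩
    nlinarith [mul_self_nonneg a, mul_self_nonneg b, mul_self_nonneg c, mul_self_nonneg d]
  · obtain ⟨a, b, c, d, h'⟩ := Nat.sum_four_squares (e v).toNat
    have h'' : (a : ℤ) ^ 2 + b ^ 2 + c ^ 2 + d ^ 2 = e v := by
      rw [← Int.toNat_of_nonneg h]
      exact_mod_cast h'
    exact ⟨a * a + b * b, ⟨a * a, ⟨a, rfl⟩, b, by ring⟩, c * c, ⟨c, rfl⟩, d, by linarith⟩

theorem MulDef.poly (hm : MulDef T) {γ : Type} {p : (γ → ℕ) → ℤ} (hp : IsPoly p) :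
    ∃ (s : Finset γ) (q : (γ → ℤ) → ℤ), (∀ x : γ → ℕ, q (fun i => x i) = p x) ∧
      (∀ x y, (∀ i ∈ s, x i = y i) → q x = q y) ∧
      ∀ {α : Type} {σ : (α → ℤ × A) → γ → ℤ} {c : (α → ℤ × A) → ℤ},
        (∀ i, ETm fun v => σ v i) → ETm c → Def T fun v => q (σ v) = c v := by
  classical
  induction hp with
  | proj i =>
    exact ⟨{i}, fun x => x i, fun _ => rfl, fun x y h => h i (Finset.mem_singleton_self i),
      fun hσ hc => hm.eq (hσ i) hc⟩
  | const n => exact ⟨∅, fun _ => n, fun _ => rfl, fun _ _ _ => rfl, fun _ hc => hm.eq (.const n) hc⟩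
  | sub _ _ h h' =>
    obtain ⟨s, q, h1, h2, h3⟩ := h
    obtain ⟨s', q', h1', h2', h3'⟩ := h'
    refine ⟨s ∪ s', fun x => q x - q' x, fun x => congrArg₂ (· - ·) (h1 x) (h1' x),
      fun x y h => congrArg₂ (· - ·) (h2 x y fun i hi => h i (Finset.mem_union_left _ hi))
        (h2' x y fun i hi => h i (Finset.mem_union_right _ hi)), fun {α σ c} hσ hc => ?_⟩
    have : Def T fun v => ∃ a, q' (σ v) = a ∧ q (σ v) = c v + a :=
      Def.exE ((h3' (fun i => (hσ i).lift) (.var none)).and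
        (h3 (fun i => (hσ i).lift) (hc.lift.add (.var none))))
    exact this.of_iff fun v => by simp [sub_eq_iff_eq_add]
  | mul _ _ h h' =>
    obtain ⟨s, q, h1, h2, h3⟩ := h
    obtain ⟨s', q', h1', h2', h3'⟩ := h'
    refine ⟨s ∪ s', fun x => q x * q' x, fun x => congrArg₂ (· * ·) (h1 x) (h1' x),
      fun x y h => congrArg₂ (· * ·) (h2 x y fun i hi => h i (Finset.mem_union_left _ hi))
        (h2' x y fun i hi => h i (Finset.mem_union_right _ hi)), fun {α σ c} hσ hc => ?_⟩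
    have : Def T fun v => ∃ a, ∃ b, q (σ v) = a ∧ q' (σ v) = b ∧ a * b = c v :=
      Def.exE (Def.exE ((h3 (fun i => (hσ i).lift.lift) (.var (some none))).and
        ((h3' (fun i => (hσ i).lift.lift) (.var none)).and
          (hm (.var (some none)) (.var none) hc.lift.lift))))
    exact this.of_iff fun v => by simp

theorem MulDef.undecidable (hm : MulDef T) :
    ∃ P : ℤ → Prop, Def T (fun v : Unit → ℤ × A => P (v ()).1) ∧
      ¬ ComputablePred fun k : ℕ => P k := by
  classical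
  obtain ⟨S, ⟨β, p, hp⟩, hS⟩ := Shared.DPRM.exists_undecidable_dioph
  obtain ⟨s, q, h1, h2, h3⟩ := hm.poly p.isPoly
  have h4 := Def.exs (s.erase (Sum.inl ())) ((Def.all s fun i => hm.nonneg (.var i)).and
    (h3 (σ := fun v i => (v i).1) (fun i => .var i) (.const 0)))
  refine ⟨fun n => ∃ x : Unit ⊕ β → ℤ × A, (∀ i ∉ s.erase (Sum.inl ()), x i = (n, 0)) ∧
    (∀ i ∈ s, 0 ≤ (x i).1) ∧ (q fun i => (x i).1) = 0, h4.subst (σ := fun (v : Unit → ℤ × A) _ => ((v ()).1, 0))
    (fun _ => .var ()) fun _ => .const 0, ?_⟩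
  refine fun h => hS (h.of_eq fun k => ?_)
  refine Iff.trans ⟨?_, ?_⟩ (hp fun _ => k).symm
  · rintro ⟨x, h5, h6, h7⟩
    refine ⟨fun j => (x (Sum.inr j)).1.toNat, ?_⟩
    rw [← h1, ← h7]
    refine h2 _ _ fun i hi => ?_
    rcases i with _ | j
    · rw [h5 _ (by simp)]
      rfl
    · exact Int.toNat_of_nonneg (h6 _ hi)
  · rintro ⟨t, ht⟩
    refine ⟨fun i => if i ∈ s.erase (Sum.inl ()) then
      ((Sum.elim (fun _ => k) t i : ℕ), 0) else (k, 0),
      fun i hi => if_neg hi, fun i _ => by dsimp only; split_ifs <;> simp, ?_⟩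
    rw [← ht, ← h1]
    refine h2 _ _ fun i hi => ?_
    rcases i with _ | j
    · simp
    · simp [hi]

end Pool.Agent.Lib.MP_db697d_lc
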