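import Pool.Agent.Lib.MP_db697d_lc.Itf

/-!
Relations definable by finite disjunctions of finite systems of equations in a group, and the
interpretation of the two-sorted structure `(ℤ, A)`.
-/

namespace Pool.Agent.Lib.MP_db697d_lc

variable {G : Type} [Group G] {n : ℕ} (π : FreeGroup (Fin n) →* G) {α β : Type}

/-- Evaluation of a word with constants. -/
def ev (v : α → G) : FreeGroup (Fin n ⊕ α) →* G :=
  FreeGroup.lift (Sum.elim (fun i => π (FreeGroup.of i)) v)

/-- Word maps. -/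
def Wd (f : (α → G) → G) : Prop := ∃ w, ∀ v, ev π v w = f v

/-- Solution sets of finite systems. -/
def Cj (Q : (α → G) → Prop) : Prop :=
  ∃ S : List (FreeGroup (Fin n ⊕ α)), ∀ v, Q v ↔ ∀ w ∈ S, ev π v w = 1

/-- Finite unions of projections of solution sets. -/
def ED (P : (α → G) → Prop) : Prop :=
  ∃ (ι β : Type) (_ : Finite ι) (_ : Countable β) (Q : ι → (α ⊕ β → G) → Prop),
    (∀ i, Cj π (Q i)) ∧ ∀ v, P v ↔ ∃ i s, Q i (Sum.elim v s)

variable {π}

theorem Wd.var (i : α) : Wd π fun v => v i := ⟨.of (.inr i), fun _ => by simp [ev]⟩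

theorem Wd.const (hπ : Function.Surjective π) (g : G) : Wd π fun _ : α → G => g := by
  obtain ⟨w, rfl⟩ := hπ g
  refine ⟨FreeGroup.map Sum.inl w, fun v => ?_⟩
  exact DFunLike.congr_fun (show (ev π v).comp (FreeGroup.map Sum.inl) = π by ext; simp [ev]) w

theorem Wd.mul {f g : (α → G) → G} : Wd π f → Wd π g → Wd π fun v => f v * g v
  | ⟨w, h⟩, ⟨w', h'⟩ => ⟨w * w', fun v => by rw [map_mul, h, h']⟩

theorem Wd.inv {f : (α → G) → G} : Wd π f → Wd π fun v => (f v)⁻¹
  | ⟨w, h⟩ => ⟨w⁻¹, fun v => by rw [map_inv, h]⟩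

theorem Wd.pow {f : (α → G) → G} (k : ℕ) : Wd π f → Wd π fun v => f v ^ k
  | ⟨w, h⟩ => ⟨w ^ k, fun v => by rw [map_pow, h]⟩

theorem exists_subst {σ : (β → G) → α → G} (hσ : ∀ i, Wd π fun v => σ v i) :
    ∃ F : FreeGroup (Fin n ⊕ α) → FreeGroup (Fin n ⊕ β), ∀ v w, ev π v (F w) = ev π (σ v) w := by
  choose W hW using hσ
  refine ⟨FreeGroup.lift (Sum.elim (fun i => .of (.inl i)) W), fun v => DFunLike.congr_fun
    (show (ev π v).comp _ = _ from FreeGroup.ext_hom _ _ ?_)⟩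
  rintro (i | i)
  · simp [ev]
  · simpa [ev] using hW i v

theorem Wd.subst {f : (α → G) → G} (hf : Wd π f) {σ : (β → G) → α → G}
    (hσ : ∀ i, Wd π fun v => σ v i) : Wd π fun v => f (σ v) := by
  obtain ⟨w, h⟩ := hf
  obtain ⟨F, hF⟩ := exists_subst hσ
  exact ⟨F w, fun v => by rw [hF, h]⟩

theorem Cj.subst {Q : (α → G) → Prop} (hQ : Cj π Q) {σ : (β → G) → α → G}
    (hσ : ∀ i, Wd π fun v => σ v i) : Cj π fun v => Q (σ v) := by
  obtain ⟨S, h⟩ := hQ
  obtain ⟨F, hF⟩ := exists_subst hσ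
  exact ⟨S.map F, fun v => by simp [h, hF]⟩

theorem Cj.re {Q : (α → G) → Prop} (hQ : Cj π Q) (e : α → β) : Cj π fun v => Q fun i => v (e i) :=
  hQ.subst fun i => .var (e i)

theorem Cj.and {P Q : (α → G) → Prop} : Cj π P → Cj π Q → Cj π fun v => P v ∧ Q v
  | ⟨S, h⟩, ⟨S', h'⟩ => ⟨S ++ S', fun v => by simp only [h, h', List.forall_mem_append]⟩

theorem ED.of_iff {P Q : (α → G) → Prop} (h : ED π P) (e : ∀ v, P v ↔ Q v) : ED π Q :=
  (funext fun v => propext (e v) : P = Q) ▸ h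

theorem ED.eq {f g : (α → G) → G} (hf : Wd π f) (hg : Wd π g) : ED π fun v => f v = g v := by
  obtain ⟨w, h⟩ := (hf.mul hg.inv).subst (β := α ⊕ Unit) (σ := fun v i => v (.inl i))
    fun i => .var _
  exact ⟨Unit, Unit, inferInstance, inferInstance, fun _ v => ev π v w = 1,
    fun _ => ⟨[w], by simp⟩, fun v => by simp [h, mul_inv_eq_one]⟩

theorem ED.and {P Q : (α → G) → Prop} : ED π P → ED π Q → ED π fun v => P v ∧ Q v
  | ⟨ι, β, _, _, R, h1, h2⟩, ⟨ι', β', _, _, R', h1', h2'⟩ =>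
    ⟨ι × ι', β ⊕ β', inferInstance, inferInstance, _,
      fun i => ((h1 i.1).re (Sum.map id .inl)).and ((h1' i.2).re (Sum.map id .inr)), fun v => by
      simp only [h2, h2']
      constructor
      · rintro ⟨⟨i, s, h⟩, i', s', h'⟩
        refine ⟨(i, i'), Sum.elim s s', ?_, ?_⟩
        · convert h with (_ | _) <;> rfl
        · convert h' with (_ | _) <;> rfl
      · rintro ⟨i, s, h, h'⟩
        refine ⟨⟨i.1, s ∘ .inl, ?_⟩, i.2, s ∘ .inr, ?_⟩
        · convert h with (_ | _) <;> rfl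
        · convert h' with (_ | _) <;> rfl⟩

theorem ED.or {P Q : (α → G) → Prop} : ED π P → ED π Q → ED π fun v => P v ∨ Q v
  | ⟨ι, β, _, _, R, h1, h2⟩, ⟨ι', β', _, _, R', h1', h2'⟩ =>
    ⟨ι ⊕ ι', β ⊕ β', inferInstance, inferInstance,
      Sum.elim (fun i v => R i fun j => v (Sum.map id .inl j))
        fun i v => R' i fun j => v (Sum.map id .inr j),
      fun i => i.rec (fun i => (h1 i).re _) fun i => (h1' i).re _, fun v => by
      simp only [h2, h2']
      constructor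
      · rintro (⟨i, s, h⟩ | ⟨i, s, h⟩)
        · refine ⟨.inl i, Sum.elim s 1, ?_⟩
          rw [Sum.elim_inl]
          convert h with (_ | _) <;> rfl
        · refine ⟨.inr i, Sum.elim 1 s, ?_⟩
          rw [Sum.elim_inr]
          convert h with (_ | _) <;> rfl
      · rintro ⟨i | i, s, h⟩
        · refine .inl ⟨i, s ∘ .inl, ?_⟩
          rw [Sum.elim_inl] at h
          convert h with (_ | _) <;> rfl
        · refine .inr ⟨i, s ∘ .inr, ?_⟩
          rw [Sum.elim_inr] at h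
          convert h with (_ | _) <;> rfl⟩

theorem ED.ex {P : G → (α → G) → Prop} :
    (ED π fun v : Option α → G => P (v none) fun i => v (some i)) → ED π fun v => ∃ x, P x v
  | ⟨ι, β, _, _, R, h1, h2⟩ => ⟨ι, Option β, inferInstance, inferInstance, _, fun i =>
      (h1 i).re (Sum.elim (fun o => o.elim (.inr none) .inl) fun j => .inr (some j)), fun v => by
      constructor
      · rintro ⟨x, h⟩
        obtain ⟨i, s, h⟩ := (h2 fun o => o.elim x v).1 h
        refine ⟨i, fun o => o.elim x s, ?_⟩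
        convert h with ((_ | _) | _) <;> rfl
      · rintro ⟨i, s, h⟩
        refine ⟨s none, (h2 fun o => o.elim (s none) v).2 ⟨i, s ∘ some, ?_⟩⟩
        convert h with ((_ | _) | _) <;> rfl⟩

theorem ED.subst {P : (α → G) → Prop} {σ : (β → G) → α → G} (hσ : ∀ i, Wd π fun v => σ v i) :
    ED π P → ED π fun v => P (σ v)
  | ⟨ι, γ, _, _, _, h1, h2⟩ => ⟨ι, γ, inferInstance, inferInstance, _, fun i =>
      (h1 i).subst (σ := fun v => Sum.elim (σ fun j => v (.inl j)) fun j => v (.inr j))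
        fun j => j.rec (fun j => (hσ j).subst fun _ => .var _) fun _ => .var _, fun _ => h2 _⟩

theorem ED.all {ι : Type} (s : Finset ι) {P : ι → (α → G) → Prop} (h : ∀ i, ED π (P i)) :
    ED π fun v => ∀ i ∈ s, P i v := by
  classical
  induction s using Finset.induction_on with
  | empty => exact (ED.eq ⟨1, fun _ => rfl⟩ ⟨1, fun _ => rfl⟩).of_iff (by simp)
  | insert i s _ ih => exact ((h i).and ih).of_iff (by simp)

theorem ED.any (N : ℕ) {P : ℕ → (α → G) → Prop} (h : ∀ i, ED π (P i)) :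
    ED π fun v => ∃ i ≤ N, P i v := by
  induction N with
  | zero => exact (h 0).of_iff (by simp)
  | succ N ih =>
    exact (ih.or (h (N + 1))).of_iff fun v => by
      simp only [← Nat.lt_succ_iff, Nat.exists_lt_succ_right (n := N + 1)]

theorem ED.cent (hπ : Function.Surjective π) {K : Subgroup G} (hK : K.FG) {f : (α → G) → G}
    (hf : Wd π f) : ED π fun v => f v ∈ Subgroup.centralizer (K : Set G) := by
  obtain ⟨s, rfl⟩ := hK
  exact (ED.all s fun g => ED.eq ((Wd.const hπ g).mul hf) (hf.mul (Wd.const hπ g))).of_iff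
    fun v => by rw [Subgroup.centralizer_closure, Subgroup.mem_centralizer_iff]; rfl

theorem ED.computable (hπ : Function.Surjective π) (hD : ComputablePred (DP π))
    {P : (Unit → G) → Prop} (h : ED π P) (t : G) :
    ComputablePred fun k : ℕ => P fun _ => t ^ k := by
  classical
  obtain ⟨ι, β, _, _, Q, h1, h2⟩ := h
  obtain ⟨c, hc⟩ := exists_injective_nat β
  have h3 : ∀ i, ComputablePred fun k : ℕ => ∃ s, Q i (Sum.elim (fun _ => t ^ k) s) := by
    intro i
    obtain ⟨S, hS⟩ := (h1 i).re (Sum.elim (fun _ => 0) fun j => c j + 1)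
    obtain ⟨W, hW⟩ := Wd.const (α := ℕ) hπ t
    have h4 : Primrec fun k : ℕ =>
        (fun l => W.toWord ++ l)^[k] [(Sum.inr 0, false)] :: S.map FreeGroup.toWord :=
      Primrec.list_cons.comp (Primrec.nat_iterate Primrec.id (Primrec.const _)
        (Primrec.list_append.comp (Primrec.const _) Primrec.snd).to₂) (Primrec.const _)
    refine (Computable.computablePred (hD.decide.comp h4.to_comp)).of_eq fun k => ?_
    have h5 : ∀ s : ℕ → G, ev π s (FreeGroup.mk ((fun l => W.toWord ++ l)^[k]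
        [(Sum.inr 0, false)])) = t ^ k * (s 0)⁻¹ := fun s => by
      induction k with
      | zero => simp [ev]
      | succ k ih =>
        rw [Function.iterate_succ_apply', ← FreeGroup.mul_mk, map_mul, ih, FreeGroup.mk_toWord, hW,
          pow_succ', mul_assoc]
    have h6 : ∀ s : ℕ → G, (∀ w ∈ (fun l => W.toWord ++ l)^[k] [(Sum.inr 0, false)] ::
        S.map FreeGroup.toWord, ev π s (FreeGroup.mk w) = 1) ↔
        t ^ k = s 0 ∧ Q i (Sum.elim (fun _ => s 0) fun j => s (c j + 1)) := fun s => by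
      simp only [List.forall_mem_cons, h5, List.forall_mem_map, FreeGroup.mk_toWord, ← hS,
        mul_inv_eq_one]
      refine and_congr_right fun _ => iff_of_eq (congrArg _ (funext ?_))
      rintro (_ | _) <;> rfl
    refine (exists_congr h6).trans ⟨fun ⟨s, h, h'⟩ => ⟨_, h ▸ h'⟩, fun ⟨s, h⟩ =>
      ⟨fun m => m.rec (t ^ k) fun m _ => Function.extend c s 1 m, rfl, ?_⟩⟩
    simpa [hc.extend_apply] using h
  have h4 : ∀ s : Finset ι,
      ComputablePred fun k : ℕ => ∃ i ∈ s, ∃ s, Q i (Sum.elim (fun _ => t ^ k) s) := by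
    intro s
    induction s using Finset.induction_on with
    | empty => exact ComputablePred.computable_iff.2 ⟨fun _ => false, .const _, by simp⟩
    | insert i s _ ih =>
      exact ComputablePred.computable_iff.2
        ⟨_, Primrec.or.to_comp.comp (h3 i).decide ih.decide, by simp⟩
  have := Fintype.ofFinite ι
  exact (h4 Finset.univ).of_eq fun k => by simp [h2]

section Translate

variable (hπ : Function.Surjective π) {A : Type} [AddCommGroup A] {T : (Module.End ℤ A)ˣ}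
  {ι : A → G} (hι : Function.Injective ι) (hι' : ∀ x y, ι (x + y) = ι x * ι y) {t : G}
  (ht : ∀ y, ι (T.1 y) = t * ι y * t⁻¹)

/-- The group element `g` acts on `A` as `T ^ a`. -/
def Rep (T : (Module.End ℤ A)ˣ) (ι : A → G) (g : G) (a : ℤ) : Prop :=
  ∀ y, ι ((T ^ a).1 y) = g * ι y * g⁻¹

theorem Rep.mul {g h : G} {a b : ℤ} (h1 : Rep T ι g a) (h2 : Rep T ι h b) :
    Rep T ι (g * h) (a + b) := fun y => by
  rw [zpow_add, Units.val_mul, Module.End.mul_apply, h1, h2]
  group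

theorem Rep.inv {g : G} {a : ℤ} (h1 : Rep T ι g a) : Rep T ι g⁻¹ (-a) := fun y => by
  have := h1 ((T ^ (-a)).1 y)
  rw [← Module.End.mul_apply, ← Units.val_mul, ← zpow_add, add_neg_cancel, zpow_zero,
    Units.val_one, Module.End.one_apply] at this
  rw [this]
  group

include ht in
theorem rep_zpow (a : ℤ) : Rep T ι (t ^ a) a := by
  have h1 : Rep T ι t 1 := fun y => by rw [zpow_one, ht]
  induction a using Int.induction_on with
  | zero => exact fun y => by simp
  | succ a ih => exact zpow_add_one t a ▸ ih.mul h1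
  | pred a ih => exact zpow_sub_one t _ ▸ ih.mul h1.inv

/-- The group tuple `g` represents the tuple `v`. -/
def Reps (T : (Module.End ℤ A)ˣ) (ι : A → G) (v : α → ℤ × A) (g : α × Bool → G) : Prop :=
  ∀ i, Rep T ι (g (i, false)) (v i).1 ∧ g (i, true) = ι (v i).2

include hπ ht

theorem ETm.wd {e : (α → ℤ × A) → ℤ} (h : ETm e) :
    ∃ f, Wd π f ∧ ∀ v g, Reps T ι v g → Rep T ι (f g) (e v) := by
  induction h with
  | var i => exact ⟨_, .var (i, false), fun v g h => (h i).1⟩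
  | const a => exact ⟨_, .const hπ (t ^ a), fun _ _ _ => rep_zpow ht a⟩
  | add _ _ h h' =>
    obtain ⟨f, h1, h2⟩ := h
    obtain ⟨f', h1', h2'⟩ := h'
    exact ⟨_, h1.mul h1', fun v g h => (h2 v g h).mul (h2' v g h)⟩
  | neg _ h =>
    obtain ⟨f, h1, h2⟩ := h
    exact ⟨_, h1.inv, fun v g h => (h2 v g h).inv⟩

include hι'

theorem MTm.wd {m : (α → ℤ × A) → A} (h : MTm T m) :
    ∃ f, Wd π f ∧ ∀ v g, Reps T ι v g → f g = ι (m v) := by
  induction h with
  | var i => exact ⟨_, .var (i, true), fun v g h => (h i).2⟩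
  | const a => exact ⟨_, .const hπ (ι a), fun _ _ _ => rfl⟩
  | add _ _ h h' =>
    obtain ⟨f, h1, h2⟩ := h
    obtain ⟨f', h1', h2'⟩ := h'
    exact ⟨_, h1.mul h1', fun v g h => by rw [h2 v g h, h2' v g h, hι']⟩
  | neg _ h =>
    obtain ⟨f, h1, h2⟩ := h
    exact ⟨_, h1.inv, fun v g h => by
      rw [h2 v g h, inv_eq_iff_mul_eq_one, ← hι', add_neg_cancel, ← left_eq_mul (a := ι 0),
        ← hι', add_zero]⟩
  | act he _ h =>
    obtain ⟨f, h1, h2⟩ := h
    obtain ⟨f', h1', h2'⟩ := he.wd hπ ht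
    exact ⟨_, (h1'.mul h1).mul h1'.inv, fun v g h => by rw [h2 v g h, h2' v g h]⟩

include hι

theorem Def.ed {H : G → Prop} (h1 : ED π fun g : Unit → G => H (g ()))
    (hH : ∀ g, H g → ∃ a, Rep T ι g a) (hH' : ∀ a : ℤ, H (t ^ a))
    (h2 : ED π fun g : Unit → G => g () ∈ Set.range ι) {P : (α → ℤ × A) → Prop} (h : Def T P) :
    ∃ Q, ED π Q ∧ ∀ v g, Reps T ι v g → (Q g ↔ P v) := by
  induction h with
  | eq h =>
    obtain ⟨f, h3, h4⟩ := h.wd hπ hι' ht
    exact ⟨_, .eq h3 (.const hπ (ι 0)), fun v g h => by rw [h4 v g h, hι.eq_iff]⟩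
  | and _ _ h h' =>
    obtain ⟨Q, h3, h4⟩ := h
    obtain ⟨Q', h3', h4'⟩ := h'
    exact ⟨_, h3.and h3', fun v g h => and_congr (h4 v g h) (h4' v g h)⟩
  | or _ _ h h' =>
    obtain ⟨Q, h3, h4⟩ := h
    obtain ⟨Q', h3', h4'⟩ := h'
    exact ⟨_, h3.or h3', fun v g h => or_congr (h4 v g h) (h4' v g h)⟩
  | @ex α P _ h =>
    obtain ⟨Q, h3, h4⟩ := h
    have h5 : ∀ (v : α → ℤ × A) g x a y, Reps T ι v g → Rep T ι x a →
        Reps T ι (fun o : Option α => o.elim (a, y) v)
          fun p => p.1.elim (bif p.2 then ι y else x) fun i => g (i, p.2) := by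
      rintro v g x a y h h' (_ | i)
      exacts [⟨h', rfl⟩, h i]
    refine ⟨fun g => ∃ x y, H x ∧ y ∈ Set.range ι ∧
      Q fun p => p.1.elim (bif p.2 then y else x) fun i => g (i, p.2), ?_, fun v g h => ?_⟩
    · refine .ex (.ex (.and (h1.subst (σ := fun v _ => v (some none)) fun _ => .var _)
        (.and (h2.subst (σ := fun v _ => v none) fun _ => .var _) (h3.subst ?_))))
      rintro ⟨_ | i, _ | _⟩ <;> exact .var _
    · exact ⟨fun ⟨x, _, hx, ⟨y, rfl⟩, h6⟩ => (hH x hx).elim fun a ha =>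
          ⟨(a, y), (h4 _ _ (h5 v g x a y h ha)).1 h6⟩,
        fun ⟨⟨a, y⟩, h6⟩ => ⟨t ^ a, ι y, hH' a, ⟨y, rfl⟩,
          (h4 _ _ (h5 v g _ a y h (rep_zpow ht a))).2 h6⟩⟩
  | of_iff _ e h =>
    obtain ⟨Q, h3, h4⟩ := h
    exact ⟨Q, h3, fun v g h => (h4 v g h).trans (e v)⟩

end Translate

open Subgroup in
theorem mem_normalizer_centralizer {t : G} {S : Set G} (h : t ∈ normalizer S) :
    t ∈ normalizer (centralizer S : Set G) := by
  have : ∀ t ∈ normalizer S, ∀ c ∈ centralizer S, t * c * t⁻¹ ∈ centralizer S :=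
    fun t ht c hc m hm => by
      have h1 := hc _ ((inv_mem ht m).1 hm)
      rw [← mul_right_inj t⁻¹, ← mul_left_inj t]
      simpa [mul_assoc] using h1
  exact fun c => ⟨this t h c, fun hc => by simpa [mul_assoc] using this _ (inv_mem h) _ hc⟩

open Subgroup in
theorem group_side (hG : ∀ H : Subgroup G, H.FG) (K M : Subgroup G)
    (hM : ∀ a ∈ M, ∀ b ∈ M, a * b = b * a) (t : G) (htM : t ∈ normalizer (M : Set G))
    (htK : t ∈ centralizer (K : Set G))
    (ht : (zpowers t ⊔ centralizer (M : Set G)).relIndex (centralizer K) ≠ 0)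
    (hπ : Function.Surjective π) :
    ∃ (A : Type) (_ : AddCommGroup A) (_ : Module.Finite ℤ A) (T : (Module.End ℤ A)ˣ)
      (ι : A → G), Function.Injective ι ∧ (∀ x y, ι (x + y) = ι x * ι y) ∧
      (∀ m ∈ M, m ∈ Set.range ι) ∧ (∀ y, ι (T.1 y) = t * ι y * t⁻¹) ∧
      ∀ P : ℤ → Prop, Def T (fun v : Unit → ℤ × A => P (v ()).1) → ComputablePred (DP π) →
        ComputablePred fun k : ℕ => P k := by
  have h0 := mem_normalizer_centralizer htM
  set C := centralizer (M : Set G) with hC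
  let Z := C ⊓ centralizer (C : Set G)
  have h1 : M ≤ Z := fun m hm => ⟨fun b hb => hM b hb m hm, fun c hc => (hc m hm).symm⟩
  have h2 : ∀ g, g ∈ C ↔ ∀ z ∈ Z, z * g = g * z :=
    fun g => ⟨fun hg z hz => (hz.2 g hg).symm, fun h m hm => h m (h1 hm)⟩
  let : CommGroup Z := { (inferInstance : Group Z) with
    mul_comm := fun a b => Subtype.ext ((h2 _).1 b.2.1 _ a.2) }
  have : Group.FG Z := (Group.fg_iff_subgroup_fg Z).2 (hG Z)
  let T : (Module.End ℤ (Additive Z))ˣ := LinearMap.GeneralLinearGroup.ofLinearEquiv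
    (MulEquiv.toAdditive (Z.normalizerMonoidHom ⟨t, inf_normalizer_le_normalizer_inf
      ⟨h0, mem_normalizer_centralizer h0⟩⟩)).toIntLinearEquiv
  let ι : Additive Z → G := fun y => (y.toMul : Z)
  have h3 : Function.Injective ι := fun _ _ h => Additive.toMul.injective (Subtype.ext h)
  have h4 : ∀ x y, ι (x + y) = ι x * ι y := fun _ _ => rfl
  have h5 : ∀ y, ι (T.1 y) = t * ι y * t⁻¹ := fun _ => rfl
  refine ⟨Additive Z, inferInstance, Module.Finite.iff_addGroup_fg.2 inferInstance, T, ι, h3, h4,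
    fun m hm => ⟨Additive.ofMul ⟨m, h1 hm⟩, rfl⟩, h5, fun P hP hD => ?_⟩
  have h6 : ∀ g a, (t ^ a)⁻¹ * g ∈ C → Rep T ι g a := fun g a h y => by
    rw [rep_zpow h5, ← mul_inv_cancel_left (t ^ a) g, mul_assoc _ _ (ι y),
      ← (h2 _).1 h _ y.toMul.2]
    simp only [ι]
    group
  have : ((zpowers t ⊔ C).subgroupOf (centralizer K)).FiniteIndex := ⟨ht⟩
  have h7 : ((zpowers t ⊔ C).subgroupOf (centralizer K)).normalCore.index ≠ 0 :=
    FiniteIndex.index_ne_zero
  set N := ((zpowers t ⊔ C).subgroupOf (centralizer K)).normalCore.index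
  have h8 : ∀ g ∈ zpowers t ⊔ C, ∃ a : ℤ, (t ^ a)⁻¹ * g ∈ C := fun g hg => by
    rw [← SetLike.mem_coe, coe_mul_of_left_le_normalizer_right _ _ (zpowers_le.2 h0)] at hg
    obtain ⟨_, ⟨a, rfl⟩, z, h, e⟩ := hg
    exact ⟨a, by simpa [← e] using h⟩
  have h9 : ED π fun g : Unit → G =>
      ∃ i ≤ N, ∃ x ∈ centralizer (K : Set G), g () = t ^ i * x ^ N :=
    ED.any N fun i => .ex (.and (.cent hπ (hG K) (.var none))
      (.eq (.var _) ((Wd.const hπ _).mul ((Wd.var none).pow N))))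
  obtain ⟨Q, h10, h11⟩ := hP.ed hπ h3 h4 h5
    (H := fun g => ∃ i ≤ N, ∃ x ∈ centralizer (K : Set G), g = t ^ i * x ^ N) h9
    (by
      rintro _ ⟨i, -, x, hx, rfl⟩
      obtain ⟨a, ha⟩ := h8 _ (mul_mem (mem_sup_left (pow_mem (mem_zpowers t) i))
        (mem_subgroupOf.1 (normalCore_le _
          (pow_index_mem _ (⟨x, hx⟩ : centralizer (K : Set G))))))
      exact ⟨a, h6 _ a ha⟩)
    (fun a => by
      have h12 := Int.emod_nonneg a (Int.natCast_ne_zero.2 h7)
      have h13 := Int.emod_lt_of_pos a (Int.natCast_pos.2 (Nat.pos_of_ne_zero h7))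
      refine ⟨(a % N).toNat, by omega, t ^ (a / N), zpow_mem htK _, ?_⟩
      rw [← zpow_natCast, ← zpow_natCast, ← zpow_mul, ← zpow_add, Int.toNat_of_nonneg h12,
        Int.emod_add_ediv_mul])
    (((ED.cent hπ (hG M) (.var ())).and (ED.cent hπ (hG C) (.var ()))).of_iff fun g =>
      ⟨fun h => ⟨Additive.ofMul ⟨g (), h⟩, rfl⟩, fun ⟨y, h⟩ => h ▸ y.toMul.2⟩)
  refine ((h10.subst (σ := fun (v : Unit → G) p => bif p.2 then 1 else v ()) ?_).computable hπ hD
    t).of_eq fun k => h11 (fun _ => (k, 0)) _ fun _ => ⟨?_, rfl⟩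
  · rintro ⟨_, _ | _⟩
    exacts [.var _, .const hπ 1]
  · exact zpow_natCast t k ▸ rep_zpow h5 k

end Pool.Agent.Lib.MP_db697d_lc
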