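import Mathlib

/-!
Positive existential definability in the two-sorted structure `(ℤ, A)`, where `A` is an abelian
group with an automorphism `T` and `ℤ` acts through the powers of `T`.
-/

namespace Pool.Agent.Lib.MP_db697d_lc

variable {A : Type} [AddCommGroup A]

/-- Exponent terms. -/
inductive ETm {α : Type} : ((α → ℤ × A) → ℤ) → Prop
  | var (i : α) : ETm fun v => (v i).1
  | const (n : ℤ) : ETm fun _ => n
  | add {e f} : ETm e → ETm f → ETm fun v => e v + f v
  | neg {e} : ETm e → ETm fun v => -e v

/-- Module terms. -/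
inductive MTm (T : (Module.End ℤ A)ˣ) {α : Type} : ((α → ℤ × A) → A) → Prop
  | var (i : α) : MTm T fun v => (v i).2
  | const (y : A) : MTm T fun _ => y
  | add {m n} : MTm T m → MTm T n → MTm T fun v => m v + n v
  | neg {m} : MTm T m → MTm T fun v => -m v
  | act {e m} : ETm e → MTm T m → MTm T fun v => (T ^ e v : (Module.End ℤ A)ˣ).1 (m v)

/-- Positive existentially definable relations. -/
inductive Def (T : (Module.End ℤ A)ˣ) : {α : Type} → ((α → ℤ × A) → Prop) → Prop
  | eq {α : Type} {m : (α → ℤ × A) → A} : MTm T m → Def T fun v => m v = 0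
  | and {α : Type} {P Q : (α → ℤ × A) → Prop} : Def T P → Def T Q → Def T fun v => P v ∧ Q v
  | or {α : Type} {P Q : (α → ℤ × A) → Prop} : Def T P → Def T Q → Def T fun v => P v ∨ Q v
  | ex {α : Type} {P : (Option α → ℤ × A) → Prop} :
      Def T P → Def T fun v : α → ℤ × A => ∃ x, P fun o => o.elim x v
  | of_iff {α : Type} {P Q : (α → ℤ × A) → Prop} : Def T P → (∀ v, P v ↔ Q v) → Def T Q

/-- The Diophantine problem of `G`, with constants written over the generators `π`. -/
def DP {G : Type} [Group G] {n : ℕ} (π : FreeGroup (Fin n) →* G)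
    (S : List (List ((Fin n ⊕ ℕ) × Bool))) : Prop :=
  ∃ s : ℕ → G, ∀ w ∈ S,
    FreeGroup.lift (Sum.elim (fun i => π (FreeGroup.of i)) s) (FreeGroup.mk w) = 1

end Pool.Agent.Lib.MP_db697d_lc
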