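import Mathlib

/-!
Large moduli `u ^ n - u ^ (-n)` for a unit `u` of infinite order in a ring of integers.
-/

namespace Pool.Agent.Lib.MP_db697d_lc

open Finset

/-- The element `t ^ n - t ^ (-n)`. -/
def E {R : Type} [CommRing R] (t : Rˣ) (n : ℤ) : R := (t ^ n : Rˣ) - (t ^ (-n) : Rˣ)

theorem E_add {R : Type} [CommRing R] (t : Rˣ) (a b : ℤ) :
    E t (a + b) = (t ^ b : Rˣ) * E t a + (t ^ (-a) : Rˣ) * E t b := by
  simp only [E, neg_add, zpow_add, Units.val_mul]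
  ring

theorem E_neg {R : Type} [CommRing R] (t : Rˣ) (a : ℤ) : E t (-a) = -E t a := by
  simp only [E, neg_neg]
  ring

theorem E_two {R : Type} [CommRing R] (t : Rˣ) (a : ℤ) :
    E t (2 * a) = E t a * ((t ^ a : Rˣ) + (t ^ (-a) : Rˣ)) := by
  rw [two_mul, E_add]
  ring

theorem map_E {R S : Type} [CommRing R] [CommRing S] (σ : R →+* S) (t : Rˣ) (a : ℤ) :
    σ (E t a) = E (Units.map σ.toMonoidHom t) a := by
  simp only [E, map_sub, ← map_zpow]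
  rfl

theorem max_zpow {ρ : ℝ} (h : 0 < ρ) (n : ℤ) :
    max (ρ ^ n) (ρ ^ (-n)) = max ρ ρ⁻¹ ^ n.natAbs := by
  have : ∀ k : ℕ, max (ρ ^ k) (ρ⁻¹ ^ k) = max ρ ρ⁻¹ ^ k := fun k => by
    rcases le_total ρ ρ⁻¹ with h' | h'
    · rw [max_eq_right h', max_eq_right (pow_le_pow_left₀ h.le h' k)]
    · rw [max_eq_left h', max_eq_left (pow_le_pow_left₀ (inv_pos.2 h).le h' k)]
  obtain ⟨k, rfl | rfl⟩ := n.eq_nat_or_neg
  · simpa using this k
  · simpa [max_comm] using this k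

theorem one_le_max {ρ : ℝ} (h : 0 < ρ) : 1 ≤ max ρ ρ⁻¹ := by
  rcases le_total 1 ρ with h' | h'
  · exact le_max_of_le_left h'
  · exact le_max_of_le_right ((one_le_inv₀ h).2 h')

theorem norm_le_max (z : ℂˣ) (n : ℤ) (c : ℂ) (hc : ‖c‖ = 1) :
    ‖((z ^ n : ℂˣ) : ℂ) + c * (z ^ (-n) : ℂˣ)‖ ≤ 2 * max ‖(z : ℂ)‖ ‖(z : ℂ)‖⁻¹ ^ n.natAbs := by
  rw [← max_zpow (norm_pos_iff.2 z.ne_zero)]
  refine (norm_add_le _ _).trans ?_
  simp only [Units.val_zpow_eq_zpow_val, norm_mul, hc, norm_zpow, one_mul]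
  linarith [le_max_left (‖(z : ℂ)‖ ^ n) (‖(z : ℂ)‖ ^ (-n)),
    le_max_right (‖(z : ℂ)‖ ^ n) (‖(z : ℂ)‖ ^ (-n))]

theorem exists_delta (z : ℂˣ) (hz : ∀ n : ℤ, n ≠ 0 → z ^ n ≠ 1) (r : ℕ) : ∃ δ > 0, ∀ g : ℤ,
    ∃ b : ℕ, ∀ j < r, j ≠ b →
      δ * max ‖(z : ℂ)‖ ‖(z : ℂ)‖⁻¹ ^ (2 * (g + j)).natAbs ≤ ‖E z (2 * (g + j))‖ := by
  have h0 := norm_pos_iff.2 z.ne_zero
  rcases (one_le_max h0).eq_or_lt with h | h
  · have h1 : ‖(z : ℂ)‖ = 1 := by
      refine le_antisymm (h ▸ le_max_left _ _) ((inv_le_one₀ h0).1 (h ▸ le_max_right _ _))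
    obtain ⟨δ, hδ, h2⟩ : ∃ δ > 0, ∀ i ∈ Ioo 0 r, 2 * δ ≤ ‖(z : ℂ) ^ (4 * i : ℤ) - 1‖ := by
      have : ∀ᶠ δ in nhdsWithin (0 : ℝ) (Set.Ioi 0), ∀ i ∈ Ioo 0 r,
          2 * δ ≤ ‖(z : ℂ) ^ (4 * i : ℤ) - 1‖ := by
        refine (Filter.eventually_all_finset _).2 fun i hi => nhdsWithin_le_nhds ?_
        have h3 : 0 < ‖(z : ℂ) ^ (4 * i : ℤ) - 1‖ := by
          refine norm_pos_iff.2 (sub_ne_zero.2 fun h => hz (4 * i) ?_ (Units.ext (by simpa using h)))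
          have := (mem_Ioo.1 hi).1
          omega
        filter_upwards [Iio_mem_nhds (half_pos h3)] with δ hδ
        have : δ < _ := hδ
        linarith
      obtain ⟨δ, h, h'⟩ := (this.and self_mem_nhdsWithin).exists
      exact ⟨δ, h', h⟩
    have h3 : ∀ n : ℤ, ‖E z (2 * n)‖ = ‖(z : ℂ) ^ (4 * n) - 1‖ := fun n => by
      have : (z : ℂ) ^ (4 * n) - 1 = (z : ℂ) ^ (2 * n) * E z (2 * n) := by
        simp only [E, Units.val_zpow_eq_zpow_val, mul_sub, ← zpow_add₀ z.ne_zero]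
        rw [add_neg_cancel, zpow_zero]
        ring_nf
      rw [this, norm_mul, norm_zpow, h1, one_zpow, one_mul]
    have h4 : ∀ (g : ℤ) (j k : ℕ), j < k → k < r → ‖E z (2 * (g + j))‖ < δ →
        ‖E z (2 * (g + k))‖ < δ → False := fun g j k hjk hk hj' hk' => by
      obtain ⟨i, rfl⟩ := Nat.exists_eq_add_of_le hjk.le
      have h5 := h2 i (mem_Ioo.2 ⟨by omega, by omega⟩)
      have h6 : (z : ℂ) ^ (4 * (g + j)) * ((z : ℂ) ^ (4 * i : ℤ) - 1) =
          ((z : ℂ) ^ (4 * (g + (j + i : ℕ))) - 1) - ((z : ℂ) ^ (4 * (g + j)) - 1) := by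
        rw [mul_sub, ← zpow_add₀ z.ne_zero]
        push_cast
        ring_nf
      have h7 := congrArg norm h6
      rw [norm_mul, norm_zpow, h1, one_zpow, one_mul] at h7
      rw [h3] at hj' hk'
      linarith [norm_sub_le ((z : ℂ) ^ (4 * (g + (j + i : ℕ))) - 1) ((z : ℂ) ^ (4 * (g + j)) - 1)]
    refine ⟨δ, hδ, fun g => ?_⟩
    rw [← h]
    simp only [one_pow, mul_one]
    by_cases h5 : ∃ b < r, ‖E z (2 * (g + (b : ℕ)))‖ < δ
    · obtain ⟨b, hb, h5⟩ := h5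
      refine ⟨b, fun j hj hne => not_lt.1 fun h6 => ?_⟩
      rcases lt_or_gt_of_ne hne with h7 | h7
      · exact h4 g j b h7 hb h6 h5
      · exact h4 g b j h7 hj h5 h6
    · exact ⟨0, fun j hj _ => not_lt.1 fun h6 => h5 ⟨j, hj, h6⟩⟩
  · set μ := max ‖(z : ℂ)‖ ‖(z : ℂ)‖⁻¹
    refine ⟨1 - μ⁻¹, sub_pos.2 (inv_lt_one_of_one_lt₀ h), fun g => ⟨(-g).toNat, fun j _ hj => ?_⟩⟩
    generalize hn : 2 * (g + j) = n
    have h1 : μ ≤ μ ^ n.natAbs := le_self_pow₀ h.le (by omega)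
    have h2 := max_zpow h0 n
    have h3 : |‖(z : ℂ)‖ ^ n - ‖(z : ℂ)‖ ^ (-n)| ≤ ‖E z n‖ := by
      simpa [E] using abs_norm_sub_norm_le ((z : ℂ) ^ n) ((z : ℂ) ^ (-n))
    refine le_trans ?_ h3
    change _ = μ ^ _ at h2
    have h4 : 1 ≤ μ⁻¹ * μ ^ n.natAbs := by
      rw [inv_mul_eq_div, one_le_div (by linarith)]
      exact h1
    have h5 : ‖(z : ℂ)‖ ^ n * ‖(z : ℂ)‖ ^ (-n) = 1 := by rw [← zpow_add₀ h0.ne', add_neg_cancel, zpow_zero]
    have h6 := zpow_pos h0 n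
    have h7 := zpow_pos h0 (-n)
    rw [← h2] at h4 ⊢
    rcases le_total (‖(z : ℂ)‖ ^ n) (‖(z : ℂ)‖ ^ (-n)) with h8 | h8
    · rw [max_eq_right h8] at h4 ⊢
      rw [abs_of_nonpos (by linarith)]
      nlinarith
    · rw [max_eq_left h8] at h4 ⊢
      rw [abs_of_nonneg (by linarith)]
      nlinarith

theorem exists_good {O ι : Type} [CommRing O] [IsDomain O] [Fintype ι] (σ : ι → O →+* ℂ)
    (h1 : ∀ β : O, β ≠ 0 → 1 ≤ ∏ i, ‖σ i β‖) (u : Oˣ) (hu : ∀ n : ℤ, n ≠ 0 → u ^ n ≠ 1)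
    (hu' : ∃ i, ‖σ i u‖ ≠ 1) {D : O} (hD : D ≠ 0) : ∃ L r : ℕ, ∀ a : ℤ, ∃ j < r,
      E u (2 * (L * (2 * a + 1) + j)) ≠ 0 ∧
      (∀ y, E u (2 * (L * (2 * a + 1) + j)) ∣ D * E u (2 * y) → L * (2 * a + 1) + j ∣ y) ∧
      ∀ z : ℤ, E u (L * (2 * a + 1) + j) ∣ D * z → |z| ≤ a ^ 2 + |a| → z = 0 := by
  classical
  let z : ι → ℂˣ := fun i => Units.map (σ i).toMonoidHom u
  have hσ : ∀ i β, β ≠ 0 → σ i β ≠ 0 := fun i β hβ h => by
    have := h1 β hβ
    rw [prod_eq_zero (mem_univ i) (by rw [h, norm_zero])] at this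
    linarith
  have hz : ∀ i (n : ℤ), n ≠ 0 → z i ^ n ≠ 1 := fun i n hn h =>
    hσ i _ (sub_ne_zero.2 fun h => hu n hn (Units.ext h)) (by
      rw [← map_zpow] at h
      rw [map_sub, sub_eq_zero, Units.val_one, map_one]
      exact congrArg Units.val h)
  have hE : ∀ n : ℤ, n ≠ 0 → E u n ≠ 0 := fun n hn h => hu (n + n) (by omega) (by
    rw [zpow_add, ← eq_inv_iff_mul_eq_one, ← zpow_neg]
    exact Units.ext (sub_eq_zero.1 h))
  let d := Fintype.card ι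
  choose δ hδ hδ' using fun i => exists_delta (z i) (hz i) (d + 1)
  let μ : ι → ℝ := fun i => max ‖(z i : ℂ)‖ ‖(z i : ℂ)‖⁻¹
  have hμ : ∀ i, 1 ≤ μ i := fun i => one_le_max (norm_pos_iff.2 (z i).ne_zero)
  have hΛ : 1 < ∏ i, μ i := by
    obtain ⟨i, hi⟩ := hu'
    rw [← prod_const_one (s := (univ : Finset ι))]
    refine prod_lt_prod (fun _ _ => one_pos) (fun i _ => hμ i) ⟨i, mem_univ i, (hμ i).lt_of_ne ?_⟩
    intro h
    exact hi (le_antisymm (h ▸ le_max_left _ _)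
      ((inv_le_one₀ (norm_pos_iff.2 (z i).ne_zero)).1 (h ▸ le_max_right _ _)))
  set Λ := ∏ i, μ i with hΛd
  have hΔ : 0 < ∏ i, δ i := prod_pos fun i _ => hδ i
  set C := max 1 ((∏ i, ‖σ i D‖) * 2 ^ d / ∏ i, δ i) with hC
  obtain ⟨L, hL⟩ := pow_unbounded_of_one_lt (C * 12 ^ d) hΛ
  refine ⟨L + d, d + 1, fun a => ?_⟩
  choose b hb using fun i => hδ' i ((L + d : ℕ) * (2 * a + 1))
  obtain ⟨j, hj, hj'⟩ := exists_mem_notMem_of_card_lt_card (s := univ.image b) (t := range (d + 1))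
    (card_image_le.trans_lt (by simp [d]))
  rw [mem_range] at hj
  refine ⟨j, hj, ?_⟩
  have h2 := fun i => hb i j hj fun h => hj' (mem_image.2 ⟨i, mem_univ i, h.symm⟩)
  obtain ⟨n, hn, hn1, hn2⟩ : ∃ n : ℕ, L * n ≤ ((L + d : ℕ) * (2 * a + 1) + j : ℤ).natAbs ∧
      1 ≤ n ∧ |a| ≤ n := by
    refine ⟨(2 * a + 1).natAbs, ?_, by omega, by rw [abs_le]; omega⟩
    have h3 := Int.natAbs_sub_le ((L + d : ℕ) * (2 * a + 1) + j) j
    rw [add_sub_cancel_right, Int.natAbs_mul, Int.natAbs_natCast, Int.natAbs_natCast] at h3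
    have : 1 ≤ (2 * a + 1).natAbs := by omega
    nlinarith
  generalize ((L + d : ℕ) * (2 * a + 1) + j : ℤ) = g at h2 hn
  have key : ∀ (w : ℤ) (γ : O), γ ≠ 0 → w ≠ 0 → |w| ≤ a ^ 2 + |a| + 1 →
      (∀ i, ‖σ i γ‖ ≤ 2 * μ i ^ g.natAbs) → ¬ E u (2 * g) ∣ D * w * γ := by
    rintro w γ hγ hw hw' hγ' ⟨β, hβ⟩
    have h3 : β ≠ 0 := by
      rintro rfl
      obtain ⟨i, -⟩ := hu'
      refine mul_ne_zero (mul_ne_zero hD fun h => ?_) hγ (hβ.trans (mul_zero _))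
      have := congrArg (σ i) h
      simp [hw] at this
    have h4 : (∏ i, δ i) * Λ ^ (2 * g.natAbs) ≤ ∏ i, ‖σ i (E u (2 * g))‖ := by
      rw [hΛd, ← prod_pow, ← prod_mul_distrib]
      refine prod_le_prod (fun i _ => mul_nonneg (hδ i).le (pow_nonneg (by linarith [hμ i]) _))
        fun i _ => ?_
      have := h2 i
      rwa [Int.natAbs_mul, ← map_E] at this
    have h5 : (|w| : ℝ) ≤ 12 ^ n := by
      have h6 : (n : ℤ) ≤ 2 ^ n := by exact_mod_cast n.lt_two_pow_self.le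
      have h7 : (3 : ℤ) ≤ 3 ^ n := le_self_pow₀ (by norm_num) (by omega)
      have h8 : (12 : ℤ) ^ n = 3 ^ n * (2 ^ n) ^ 2 := by
        rw [← pow_mul, mul_comm n, pow_mul, ← mul_pow]
        norm_num
      have h9 : (1 : ℤ) ≤ n := by exact_mod_cast hn1
      have : |w| ≤ 12 ^ n := by
        rw [h8, ← sq_abs a] at *
        nlinarith [abs_nonneg a]
      exact_mod_cast this
    have h6 : ∏ i, ‖σ i (D * w * γ)‖ ≤ (∏ i, ‖σ i D‖) * (12 ^ n) ^ d * (2 ^ d * Λ ^ g.natAbs) := by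
      simp only [hΛd, d, ← card_univ, ← prod_const, ← prod_pow, ← prod_mul_distrib]
      refine prod_le_prod (fun i _ => norm_nonneg _) fun i _ => ?_
      rw [map_mul, map_mul, norm_mul, norm_mul, map_intCast, Complex.norm_intCast]
      gcongr
      exact hγ' i
    have h7 : ∏ i, ‖σ i (E u (2 * g))‖ ≤ ∏ i, ‖σ i (D * w * γ)‖ := by
      simp only [hβ, map_mul, norm_mul, prod_mul_distrib]
      exact le_mul_of_one_le_right (prod_nonneg fun _ _ => norm_nonneg _) (h1 β h3)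
    have h8 : C * (12 ^ n) ^ d < Λ ^ g.natAbs := by
      refine lt_of_lt_of_le ?_ (pow_le_pow_right₀ hΛ.le hn)
      rw [pow_mul]
      refine lt_of_le_of_lt ?_ (pow_lt_pow_left₀ hL (by positivity) (by omega))
      rw [mul_pow, ← pow_mul, ← pow_mul, mul_comm n]
      gcongr
      exact le_self_pow₀ (le_max_left _ _) (by omega)
    have h9 : (∏ i, ‖σ i D‖) * 2 ^ d ≤ C * ∏ i, δ i := (div_le_iff₀ hΔ).1 (le_max_right _ _)
    have h10 := (h4.trans h7).trans h6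
    have h11 : 0 < Λ ^ g.natAbs := by positivity
    rw [two_mul, pow_add, ← mul_assoc, ← mul_assoc, mul_le_mul_iff_left₀ h11] at h10
    have h12 : (0 : ℝ) < (12 ^ n) ^ d := by positivity
    nlinarith
  have hg : g ≠ 0 := fun h => by
    obtain ⟨i, -⟩ := hu'
    have := h2 i
    simp [h, E] at this
    linarith [hδ i]
  have hg2 := hE (2 * g) (by omega)
  refine ⟨hg2, fun y hy => by_contra fun h => ?_, fun w hw hw' => by_contra fun h => ?_⟩
  · let I : AddSubgroup ℤ :=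
      { carrier := {n | E u (2 * g) ∣ D * E u (2 * n)}
        zero_mem' := by simp [E]
        add_mem' := fun {a b} ha hb => by
          rw [Set.mem_ofPred_eq, mul_add, E_add, mul_add, mul_left_comm, mul_left_comm D]
          exact dvd_add (Dvd.dvd.mul_left ha _) (Dvd.dvd.mul_left hb _)
        neg_mem' := fun {a} ha => by
          rwa [Set.mem_ofPred_eq, mul_neg, E_neg, mul_neg, dvd_neg] }
    have h3 : (g.gcd y : ℤ) ∈ I := by
      rw [Int.gcd_eq_gcd_ab, mul_comm g, mul_comm y]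
      exact I.add_mem (I.zsmul_mem (show g ∈ I from dvd_mul_left _ _) _)
        (I.zsmul_mem (show y ∈ I from hy) _)
    have h4 : 0 < g.gcd y := Int.gcd_pos_of_ne_zero_left y hg
    have h5 : 2 * g.gcd y ≤ g.natAbs := by
      obtain ⟨c, hc⟩ : g.gcd y ∣ g.natAbs := Nat.gcd_dvd_left _ _
      have : c ≠ 1 := by
        rintro rfl
        refine h (Int.natAbs_dvd.1 ?_)
        rw [hc, mul_one]
        exact Int.gcd_dvd_right _ _
      have : c ≠ 0 := by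
        rintro rfl
        omega
      rw [hc, mul_comm]
      exact Nat.mul_le_mul_left _ (by omega)
    refine key 1 _ (hE (2 * g.gcd y) (by omega)) one_ne_zero
      (by simpa using by positivity) (fun i => ?_) (by rw [Int.cast_one, mul_one]; exact h3)
    rw [map_E]
    have := norm_le_max (z i) (2 * g.gcd y) (-1) (by simp)
    rw [neg_one_mul, ← sub_eq_add_neg] at this
    refine this.trans (mul_le_mul_of_nonneg_left (pow_le_pow_right₀ (hμ i) (by omega)) two_pos.le)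
  · rw [E_two] at hg2 key
    refine key w _ (right_ne_zero_of_mul hg2) h (by omega) (fun i => ?_) (mul_dvd_mul_right hw _)
    have := norm_le_max (z i) g 1 (by simp)
    rw [one_mul, ← map_zpow, ← map_zpow] at this
    rw [map_add]
    exact this

open NumberField in
theorem exists_good' {K : Type} [Field K] [NumberField K] (u : (𝓞 K)ˣ)
    (hu : ∀ n : ℤ, n ≠ 0 → u ^ n ≠ 1) {D : 𝓞 K} (hD : D ≠ 0) : ∃ L r : ℕ, ∀ a : ℤ, ∃ j < r,
      E u (2 * (L * (2 * a + 1) + j)) ≠ 0 ∧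
      (∀ y, E u (2 * (L * (2 * a + 1) + j)) ∣ D * E u (2 * y) → L * (2 * a + 1) + j ∣ y) ∧
      ∀ z : ℤ, E u (L * (2 * a + 1) + j) ∣ D * z → |z| ≤ a ^ 2 + |a| → z = 0 := by
  refine exists_good (fun σ : K →ₐ[ℚ] ℂ => σ.toRingHom.comp (algebraMap (𝓞 K) K))
    (fun β hβ => ?_) u hu (by_contra fun h => ?_) hD
  · have h1 := congrArg norm (Algebra.norm_eq_prod_embeddings ℚ ℂ (β : K))
    rw [norm_prod, ← Algebra.coe_norm_int] at h1
    refine le_of_le_of_eq ?_ h1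
    have := Int.one_le_abs (Algebra.norm_ne_zero_iff (R := ℤ).mpr hβ)
    simp only [map_intCast, Complex.norm_intCast]
    exact_mod_cast this
  · push Not at h
    obtain ⟨n, hn, h1⟩ := Embeddings.pow_eq_one_of_norm_eq_one K ℂ (u : 𝓞 K).isIntegral_coe
      fun φ => h φ.toRatAlgHom
    refine hu n (by omega) (Units.ext (RingOfIntegers.ext ?_))
    simpa using h1

end Pool.Agent.Lib.MP_db697d_lc
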