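import Pool.Agent.Lib.MP_db697d_lc.Sq

/-!
Soundness of the formulas for multiplication, through an equivariant map to dual numbers.
-/

namespace Pool.Agent.Lib.MP_db697d_lc

open Finset Polynomial TrivSqZeroExt

variable {O : Type} [CommRing O] [IsDomain O]

theorem dual_cancel {a b c : DualNumber O} (ha : a.fst ≠ 0) (h : a * b = a * c) : b = c := by
  have h1 := congrArg fst h
  have h2 := congrArg snd h
  rw [fst_mul, fst_mul] at h1
  have h3 := mul_left_cancel₀ ha h1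
  rw [DualNumber.snd_mul, DualNumber.snd_mul, h3] at h2
  exact TrivSqZeroExt.ext h3 (mul_left_cancel₀ ha (add_right_cancel h2))

theorem dual_zpow {x : (DualNumber O)ˣ} {u : Oˣ} (h1 : x.1.fst = u) (h2 : x.1.snd = u) (n : ℤ) :
    (x ^ n).1.fst = (u ^ n).1 ∧ (x ^ n).1.snd = n * (u ^ n).1 := by
  have h : ∀ n : ℤ, (x ^ (n + 1)).1.fst = (x ^ n).1.fst * u ∧
      (x ^ (n + 1)).1.snd = ((x ^ n).1.fst + (x ^ n).1.snd) * u := fun n => by
    rw [zpow_add_one, Units.val_mul, fst_mul, DualNumber.snd_mul, h1, h2, add_mul]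
    exact ⟨rfl, rfl⟩
  induction n using Int.induction_on with
  | zero => simp
  | succ n ih =>
    rw [(h n).1, (h n).2, ih.1, ih.2, zpow_add_one, Units.val_mul]
    exact ⟨rfl, by push_cast; ring⟩
  | pred n ih =>
    have h3 := h (-n - 1)
    have h4 : (u ^ (-n : ℤ)).1 = (u ^ (-n - 1 : ℤ)).1 * u := by
      rw [← Units.val_mul, ← zpow_add_one, sub_add_cancel]
    rw [sub_add_cancel, ih.1, ih.2, h4] at h3
    have h5 := mul_right_cancel₀ u.ne_zero h3.1
    refine ⟨h5.symm, mul_right_cancel₀ u.ne_zero ?_⟩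
    have h6 := h3.2
    rw [← h5] at h6
    push_cast at h6 ⊢
    linear_combination -h6

variable {A R : Type} [AddCommGroup A] [CommRing R] [Module R A] {t : Rˣ}
  {x : (DualNumber O)ˣ} {u : Oˣ} (h1 : x.1.fst = u) (h2 : x.1.snd = u)
  {φ : A →+ DualNumber O} (hφ : ∀ (n : ℤ) y, φ ((t ^ n).1 • y) = (x ^ n).1 * φ y)

omit [IsDomain O] in
include hφ in
theorem map_E_smul (n : ℤ) (y : A) : φ (E t n • y) = E x n * φ y := by
  rw [E, E, sub_smul, map_sub, hφ, hφ, sub_mul]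

include h1 h2 in
theorem fst_E (n : ℤ) : (E x n).fst = E u n := by
  rw [E, E, fst_sub, (dual_zpow h1 h2 _).1, (dual_zpow h1 h2 _).1]

include h1 h2 hφ

theorem ch_sound {g c : ℤ} (hg : E u (2 * g) ≠ 0) : ∃ s : DualNumber O, ∀ z z' : A,
    Ch t g (c * g) z z' → φ z' = (c + E x g * E x g * s) * φ z := by
  obtain ⟨s, hs⟩ := cheb x g c
  refine ⟨s, fun z z' h => dual_cancel (a := E x (2 * g)) (by rwa [fst_E h1 h2]) ?_⟩
  rw [← map_E_smul hφ, h, map_E_smul hφ, hs]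
  ring

variable {w : A} {g : ℤ} (hg : E u (2 * g) ≠ 0)
  (hg' : ∀ y, E u (2 * g) ∣ (φ w).fst ^ 2 * E u (2 * y) → g ∣ y)
include hg'

theorem ch_dvd {y : ℤ} {z : A} (h : Ch t g y w z) : ∃ c, y = c * g := by
  have h3 := congrArg (fun y => (φ y).fst) h
  simp only [map_E_smul hφ, fst_mul, fst_E h1 h2] at h3
  obtain ⟨c, hc⟩ := hg' y ⟨(φ z).fst * (φ w).fst, by linear_combination -(φ w).fst * h3⟩
  exact ⟨c, by rw [hc, mul_comm]⟩

include hg

theorem dl_sound {r : R} (hr : ∀ y, (φ (r • y)).fst = 0) {k : ℕ} {p q : A}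
    (h : Dl t r w g k p q) :
    E u g ∣ (φ w).fst * (φ p).snd - (φ w).snd * (φ p).fst - (φ w).fst * (φ q).fst := by
  induction k generalizing p q with
  | zero =>
    obtain ⟨⟨y, rfl⟩, y', y'', rfl⟩ := h
    simp only [map_add, map_E_smul hφ, fst_add, hr, fst_mul, DualNumber.snd_mul, fst_E h1 h2]
    exact ⟨(φ w).fst * (E u g * (φ y).snd + 2 * (E x g).snd * (φ y).fst) -
      (φ w).snd * E u g * (φ y).fst - (φ w).fst * (φ y').fst, by ring⟩
  | succ k ih =>
    obtain ⟨y, z, h3, h4⟩ := h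
    obtain ⟨c, rfl⟩ := ch_dvd h1 h2 hφ hg' h3
    obtain ⟨s, hs⟩ := ch_sound h1 h2 hφ (c := c) hg
    obtain ⟨b, hb⟩ := ih h4
    have h5 := hφ k z
    rw [zpow_natCast t, Units.val_pow_eq_pow_val] at h5
    simp only [map_sub, mul_smul, Nat.cast_smul_eq_nsmul, map_nsmul, h5, hs _ _ h3, nsmul_eq_mul,
      fst_sub, snd_sub, fst_mul, DualNumber.snd_mul, fst_add, snd_add, fst_E h1 h2, fst_natCast,
      fst_intCast, snd_intCast, (dual_zpow h1 h2 _).1, (dual_zpow h1 h2 _).2,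
      Int.cast_natCast] at hb
    exact ⟨b + (u ^ (k : ℤ)).1 * (φ w).fst ^ 2 * (E u g * s.snd + 2 * (E x g).snd * s.fst), by
      linear_combination hb⟩

theorem phi_sound {r : R} (hr : ∀ y, (φ (r • y)).fst = 0) {k : ℕ} {a c : ℤ}
    (h : Phi t r w k g a c) : E u g ∣ (φ w).fst ^ 2 * (a ^ 2 - c : ℤ) := by
  obtain ⟨y, z, z', h3, h4, h5, h6⟩ := h
  obtain ⟨n, rfl⟩ := ch_dvd h1 h2 hφ hg' h3
  obtain ⟨s, hs⟩ := ch_sound h1 h2 hφ (c := n) hg
  obtain ⟨b, hb⟩ := dl_sound h1 h2 hφ hg hg' hr h5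
  obtain ⟨b', hb'⟩ := dl_sound h1 h2 hφ hg hg' hr h6
  simp only [hφ, hs _ _ h4, hs _ _ h3, fst_mul, DualNumber.snd_mul, fst_add, fst_E h1 h2,
    fst_intCast, (dual_zpow h1 h2 _).1, (dual_zpow h1 h2 _).2] at hb hb'
  have h7 : E u g ∣ (φ w).fst ^ 2 * (a - n) := (Units.dvd_mul_left (u := u ^ a)).1
    ⟨b + (u ^ a).1 * (φ w).fst ^ 2 * E u g * s.fst, by linear_combination hb⟩
  have h8 : E u g ∣ (φ w).fst ^ 2 * (c - n ^ 2) := (Units.dvd_mul_left (u := u ^ c)).1
    ⟨b' + (u ^ c).1 * (φ w).fst ^ 2 * E u g * s.fst * (2 * n + E u g ^ 2 * s.fst), by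
      linear_combination hb'⟩
  convert (h7.mul_right (a + n)).sub h8 using 1
  push_cast
  ring

omit hg hg'

variable {T : (Module.End ℤ A)ˣ} (ht : ∀ (n : ℤ) y, (T ^ n).1 y = (t ^ n).1 • y) [CharZero O]
  (hw : (φ w).fst ≠ 0)
include ht hw

theorem mulDef_of_torsion {r : ℕ} (hr : r ≠ 0) (hu : u ^ (r : ℤ) = 1) : MulDef T := by
  intro α a b c ha hb hc
  have h3 : Def T fun v => ∃ y s : A, Ch t r (r * b v) w y ∧
      E t (2 * (r * a v)) • y = E t (2 * (r * c v)) • w + E t r • E t r • s :=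
    Def.exM (Def.exM ((def_ch ht (.const r) (hb.lift.lift.cmul r) (.const w) (.var (some none))).and
      (Def.meq ((MTm.var (some none)).E ht ((ha.lift.lift.cmul r).cmul 2))
        (((MTm.const w).E ht ((hc.lift.lift.cmul r).cmul 2)).add
          (((MTm.var none).E ht (.const r)).E ht (.const r))))))
  refine h3.of_iff fun v => ?_
  generalize a v = a, b v = b, c v = c
  constructor
  · rintro ⟨y, s, h4, h5⟩
    have h6 : ∀ n : ℤ, (E x (r * n)).fst = 0 ∧ (E x (r * n)).snd = 2 * r * n := fun n => by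
      rw [E, fst_sub, snd_sub, (dual_zpow h1 h2 _).1, (dual_zpow h1 h2 _).1,
        (dual_zpow h1 h2 _).2, (dual_zpow h1 h2 _).2, zpow_neg, zpow_mul, hu]
      simp
      ring
    have h7 := h6 1
    have h8 := congrArg (fun y => (φ y).snd) h4
    have h9 := congrArg (fun y => (φ y).snd) h5
    rw [mul_one] at h7
    simp only [map_E_smul hφ, DualNumber.snd_mul, map_add, snd_add, fst_mul, mul_comm 2 (r : ℤ),
      mul_left_comm 2 (r : ℤ), h6, h7] at h8 h9
    have h10 : (r : O) ≠ 0 := Nat.cast_ne_zero.2 hr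
    refine Int.cast_injective (α := O) (mul_left_cancel₀
      (mul_ne_zero (mul_ne_zero (show (4 : O) ≠ 0 by norm_num) h10) hw) ?_)
    push_cast at h8 h9 ⊢
    linear_combination h9 - a * h8
  · rintro rfl
    obtain ⟨s, hs⟩ := cheb t r a
    obtain ⟨s', hs'⟩ := cheb t r b
    obtain ⟨s'', hs''⟩ := cheb t r (a * b)
    refine ⟨(b + E t r * E t r * s') • w, (E t (2 * r) * (a * s' + b * s + E t r * E t r * s * s' -
      s'')) • w, by rw [Ch, mul_comm _ b, hs', smul_smul, mul_comm], ?_⟩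
    rw [mul_comm _ a, mul_comm _ (a * b), hs, hs'']
    push_cast
    module

omit [CharZero O] hw in
theorem mulDef_of_good {f G : ℤ[X]} (hF : (f ^ 2 * G).Monic)
    (hw' : aeval (t : R) (f ^ 2 * G) • w = 0) (hf : ∀ y, (φ (aeval (t : R) f • y)).fst = 0)
    {L r : ℕ} (hg : ∀ a : ℤ, ∃ j < r,
      E u (2 * (L * (2 * a + 1) + j)) ≠ 0 ∧
      (∀ y, E u (2 * (L * (2 * a + 1) + j)) ∣ (φ w).fst ^ 2 * E u (2 * y) →
        L * (2 * a + 1) + j ∣ y) ∧
      ∀ z : ℤ, E u (L * (2 * a + 1) + j) ∣ (φ w).fst ^ 2 * z → |z| ≤ a ^ 2 + |a| → z = 0) :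
    MulDef T := by
  let S : ℤ → ℤ → Prop := fun a c => ∀ j ∈ range r,
    Phi t (aeval (t : R) f) w ((f ^ 2 * G).natDegree + 1) (L * (2 * a + 1) + j) a c ∧
    Phi t (aeval (t : R) f) w ((f ^ 2 * G).natDegree + 1) (L * (2 * c + 1) + j) a c
  have h3 : ∀ {α : Type} {a c : (α → ℤ × A) → ℤ}, ETm a → ETm c → Def T fun v => S (a v) (c v) :=
    fun ha hc => Def.all _ fun j =>
      (def_phi ht f w _ ((((ha.cmul 2).add (.const 1)).cmul L).add (.const j)) ha hc).and
      (def_phi ht f w _ ((((hc.cmul 2).add (.const 1)).cmul L).add (.const j)) ha hc)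
  have h4 : ∀ a c, S a c → a * a = c := fun a c h => by
    rw [← sq, ← sub_eq_zero]
    have h5 : |a ^ 2 - c| ≤ a ^ 2 + |c| := (abs_sub _ _).trans (by rw [abs_sq])
    rcases le_total |c| |a| with h6 | h6
    · obtain ⟨j, hj, h7, h8, h9⟩ := hg a
      exact h9 _ (phi_sound h1 h2 hφ h7 h8 hf (h j (mem_range.2 hj)).1) (by linarith)
    · obtain ⟨j, hj, h7, h8, h9⟩ := hg c
      exact h9 _ (phi_sound h1 h2 hφ h7 h8 hf (h j (mem_range.2 hj)).2)
        (by linarith [sq_le_sq.2 h6])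
  have h5 : ∀ {α : Type} {a c : (α → ℤ × A) → ℤ}, ETm a → ETm c →
      Def T fun v => a v * a v = c v := fun {α a c} ha hc =>
    ((h3 ha hc).or (h3 ha.neg hc)).of_iff fun v => ⟨fun h => h.elim (h4 _ _)
      fun h => by simpa using h4 _ _ h, fun h => by
        rw [← h]
        obtain ⟨k, e | e⟩ := (a v).eq_nat_or_neg
        · rw [e]
          exact Or.inl fun j _ => ⟨phi_sq t hF hw' _ _, phi_sq t hF hw' _ _⟩
        · rw [e, neg_neg, neg_mul_neg]
          exact Or.inr fun j _ => ⟨phi_sq t hF hw' _ _, phi_sq t hF hw' _ _⟩⟩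
  intro α a b c ha hb hc
  have h6 : Def T fun v => ∃ s s', a v * a v = s ∧ b v * b v = s' ∧
      (a v + b v) * (a v + b v) = s + s' + c v + c v :=
    Def.exE (Def.exE ((h5 ha.lift.lift (.var (some none))).and ((h5 hb.lift.lift (.var none)).and
      (h5 (ha.add hb).lift.lift ((((ETm.var (some none)).add (.var none)).add hc.lift.lift).add
        hc.lift.lift)))))
  exact h6.of_iff fun v => ⟨fun ⟨_, _, e, e', e''⟩ => by linarith,
    fun h => ⟨_, _, rfl, rfl, by linarith⟩⟩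

end Pool.Agent.Lib.MP_db697d_lc
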