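import Pool.Agent.Lib.MP_db697d_lc.Calc
import Pool.Agent.Lib.MP_db697d_lc.Norm

/-!
Multiplication of exponents is definable when `T` has a Jordan block of size at least two.
-/

namespace Pool.Agent.Lib.MP_db697d_lc

open Finset Polynomial TrivSqZeroExt

theorem cheb {R : Type} [CommRing R] (t : Rˣ) (g c : ℤ) :
    ∃ s : R, E t (2 * (c * g)) = (c + E t g * E t g * s) * E t (2 * g) := by
  have h0 : ((t ^ g : Rˣ) : R) * (t ^ (-g) : Rˣ) = 1 := by simp [← Units.val_mul]
  have h : ∀ c : ℕ, ∃ s s' : R, E t (2 * (c * g)) = (c + E t g * E t g * s) * E t (2 * g) ∧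
      ((t ^ (-(2 * (c * g))) : Rˣ) : R) =
        1 - c * (t ^ g : Rˣ) * E t g + E t g * E t g * s' := by
    intro c
    induction c with
    | zero => exact ⟨0, 0, by simp [E], by simp⟩
    | succ c ih =>
      obtain ⟨s, s', h1, h2⟩ := ih
      have e : (2 * ((c + 1 : ℕ) * g) : ℤ) = 2 * (c * g) + (g + g) := by push_cast; ring
      refine ⟨(t ^ g : Rˣ) * (t ^ g : Rˣ) * s + s',
        1 + c + s' * (t ^ (-g) : Rˣ) * (t ^ (-g) : Rˣ), ?_, ?_⟩
      · rw [e, E_add, h1, h2, ← two_mul, two_mul g, zpow_add, Units.val_mul]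
        push_cast
        have : (c : R) * E t (g + g) * ((t ^ g : Rˣ) * (t ^ g : Rˣ) - (t ^ g : Rˣ) * E t g - 1)
            = 0 := by
          rw [show E t g = (t ^ g : Rˣ) - (t ^ (-g) : Rˣ) from rfl]
          linear_combination (c : R) * E t (g + g) * h0
        linear_combination this
      · rw [e, neg_add, neg_add, zpow_add, zpow_add, Units.val_mul, Units.val_mul, h2,
          show E t g = (t ^ g : Rˣ) - (t ^ (-g) : Rˣ) from rfl]
        push_cast
        generalize ((t ^ g : Rˣ) : R) = a at *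
        generalize ((t ^ (-g) : Rˣ) : R) = b at *
        linear_combination (1 - c * (a - b) * b) * h0
  obtain ⟨k, rfl | rfl⟩ := c.eq_nat_or_neg
  · obtain ⟨s, _, h, -⟩ := h k
    exact ⟨s, by simpa using h⟩
  · obtain ⟨s, _, h, -⟩ := h k
    refine ⟨-s, ?_⟩
    rw [neg_mul, mul_neg, E_neg, h]
    push_cast
    ring

section Formulas

variable {A R : Type} [AddCommGroup A] [CommRing R] [Module R A] (t : Rˣ)

/-- `z'` is `z` multiplied by a Chebyshev quotient. -/
def Ch (g c : ℤ) (z z' : A) : Prop := E t (2 * g) • z' = E t (2 * c) • z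

/-- `q` is the logarithmic derivative of `p`, modulo `E t g`. -/
def Dl (r : R) (w : A) (g : ℤ) : ℕ → A → A → Prop
  | 0, p, q => (∃ y : A, p = E t g • E t g • y) ∧ ∃ y y' : A, q = E t g • y + r • y'
  | k + 1, p, q => ∃ c z, Ch t g c w z ∧
      Dl r w g k (p - (t : R) ^ k • z) (q - ((k : R) * (t : R) ^ k) • z)

/-- `c` is the square of `a` modulo `E t g`. -/
def Phi (r : R) (w : A) (k : ℕ) (g a c : ℤ) : Prop :=
  ∃ y z z', Ch t g y w z ∧ Ch t g y z z' ∧
    Dl t r w g k ((t ^ a : Rˣ).1 • w) ((t ^ a : Rˣ).1 • z) ∧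
    Dl t r w g k ((t ^ c : Rˣ).1 • w) ((t ^ c : Rˣ).1 • z')

theorem dl_sum (r : R) (w : A) (g : ℤ) (c : ℕ → ℤ) (k : ℕ) (y y' y'' : A) :
    Dl t r w g k (aeval (t : R) (∑ i ∈ range k, monomial i (c i)) • w + E t g • E t g • y)
      (aeval (t : R) (X * derivative (∑ i ∈ range k, monomial i (c i))) • w +
        E t g • y' + r • y'') := by
  induction k generalizing y y' with
  | zero => exact ⟨⟨y, by simp⟩, y', y'', by simp⟩
  | succ k ih =>
    obtain ⟨s, hs⟩ := cheb t g (c k)
    refine ⟨c k * g, (c k + E t g * E t g * s) • w, by rw [Ch, hs, smul_smul, mul_comm], ?_⟩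
    have e : aeval (t : R) (X * derivative (monomial k (c k))) = k * (c k * (t : R) ^ k) := by
      rcases k with _ | k <;> simp [aeval_monomial]
      ring
    convert ih (y - ((t : R) ^ k * s) • w) (y' - (k * (t : R) ^ k * E t g * s) • w) using 1
    · rw [sum_range_succ, map_add, aeval_monomial, algebraMap_int_eq, eq_intCast]
      module
    · rw [sum_range_succ, map_add, mul_add, map_add, e]
      module

theorem dl_pow {f G : ℤ[X]} (hF : (f ^ 2 * G).Monic) {w : A}
    (hw : aeval (t : R) (f ^ 2 * G) • w = 0) (g : ℤ) (a : ℕ) (y : A) :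
    Dl t (aeval (t : R) f) w g ((f ^ 2 * G).natDegree + 1) ((t ^ (a : ℤ) : Rˣ).1 • w)
      ((t ^ (a : ℤ) : Rˣ).1 • ((a : R) • w + E t g • y)) := by
  have h1 := modByMonic_add_div (X ^ a) (f ^ 2 * G)
  have h2 := as_sum_range' (X ^ a %ₘ (f ^ 2 * G)) ((f ^ 2 * G).natDegree + 1)
    (Nat.lt_succ_of_le (natDegree_modByMonic_le _ hF))
  generalize X ^ a /ₘ (f ^ 2 * G) = h at h1
  have h3 := dl_sum t (aeval (t : R) f) w g (X ^ a %ₘ (f ^ 2 * G)).coeff
    ((f ^ 2 * G).natDegree + 1) 0 ((t : R) ^ a • y)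
    (aeval (t : R) (X * (2 * derivative f * G * h + f * derivative (G * h))) • w)
  rw [← h2] at h3
  generalize X ^ a %ₘ (f ^ 2 * G) = p at h1 h3
  have h4 : X * derivative p = (a : ℤ[X]) * X ^ a -
      f * (X * (2 * derivative f * G * h + f * derivative (G * h))) := by
    have h5 := congrArg derivative h1
    have h6 : (X : ℤ[X]) * derivative (X ^ a) = (a : ℤ[X]) * X ^ a := by
      rcases a with _ | a <;> simp
      ring
    rw [← h6, ← h5]
    simp only [derivative_add, derivative_mul, derivative_sq, map_ofNat]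
    ring
  convert h3 using 1
  · rw [eq_sub_of_add_eq h1, map_sub, mul_comm _ h, map_mul, sub_smul, mul_smul, hw]
    simp
  · rw [h4, map_sub, map_mul, map_mul]
    simp only [zpow_natCast, Units.val_pow_eq_pow_val, map_natCast, map_pow, aeval_X]
    module

theorem phi_sq {f G : ℤ[X]} (hF : (f ^ 2 * G).Monic) {w : A}
    (hw : aeval (t : R) (f ^ 2 * G) • w = 0) (g : ℤ) (a : ℕ) :
    Phi t (aeval (t : R) f) w ((f ^ 2 * G).natDegree + 1) g a (a * a) := by
  obtain ⟨s, hs⟩ := cheb t g a
  refine ⟨a * g, (a + E t g * E t g * s) • w,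
    (a + E t g * E t g * s) • (a + E t g * E t g * s) • w, ?_, ?_, ?_, ?_⟩
  · rw [Ch, hs, smul_smul, mul_comm, Int.cast_natCast]
  · rw [Ch, hs, smul_smul, mul_comm, Int.cast_natCast]
  · convert dl_pow t hF hw g a ((E t g * s) • w) using 2
    module
  · convert dl_pow t hF hw g (a * a)
      ((E t g * s * (2 * a + E t g * E t g * s)) • w) using 2
    · simp
    · simp
    · push_cast
      module

variable {t} {T : (Module.End ℤ A)ˣ} (ht : ∀ (n : ℤ) y, (T ^ n).1 y = (t ^ n).1 • y)
include ht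

theorem MTm.zpow {α : Type} {e : (α → ℤ × A) → ℤ} {m : (α → ℤ × A) → A} (he : ETm e)
    (hm : MTm T m) : MTm T fun v => (t ^ e v).1 • m v :=
  (MTm.act he hm).of_eq fun _ => ht _ _

theorem MTm.E {α : Type} {e : (α → ℤ × A) → ℤ} {m : (α → ℤ × A) → A} (he : ETm e)
    (hm : MTm T m) : MTm T fun v => E t (e v) • m v :=
  ((hm.zpow ht he).sub (hm.zpow ht he.neg)).of_eq fun _ => (sub_smul _ _ _).symm

theorem MTm.aeval {α : Type} (p : ℤ[X]) {m : (α → ℤ × A) → A}
    (hm : MTm T m) : MTm T fun v => aeval (t : R) p • m v := by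
  have h1 : ∀ n : ℕ, ∀ {m : (α → ℤ × A) → A}, MTm T m → MTm T fun v => (n : R) • m v := by
    intro n m hm
    induction n with
    | zero => exact (MTm.const 0).of_eq (by simp)
    | succ n ih => exact (ih.add hm).of_eq fun v => by simp [add_smul]
  induction p using Polynomial.induction_on' with
  | add p q hp hq => exact (hp.add hq).of_eq fun v => by simp [add_smul]
  | monomial n c =>
    have h2 := hm.zpow ht (.const n)
    obtain ⟨k, rfl | rfl⟩ := c.eq_nat_or_neg
    · exact (h1 k h2).of_eq fun v => by simp [aeval_monomial, mul_smul]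
    · exact (h1 k h2).neg.of_eq fun v => by simp [aeval_monomial, mul_smul]

theorem def_ch {α : Type} {g c : (α → ℤ × A) → ℤ} {z z' : (α → ℤ × A) → A} (hg : ETm g)
    (hc : ETm c) (hz : MTm T z) (hz' : MTm T z') : Def T fun v => Ch t (g v) (c v) (z v) (z' v) :=
  Def.meq (hz'.E ht (hg.cmul 2)) (hz.E ht (hc.cmul 2))

theorem def_dl (f : ℤ[X]) (w : A) (k : ℕ) {α : Type} {g : (α → ℤ × A) → ℤ}
    {p q : (α → ℤ × A) → A} (hg : ETm g) (hp : MTm T p) (hq : MTm T q) :
    Def T fun v => Dl t (aeval (t : R) f) w (g v) k (p v) (q v) := by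
  induction k generalizing α with
  | zero =>
    exact (Def.exM (Def.meq hp.lift (((MTm.var none).E ht hg.lift).E ht hg.lift))).and
      (Def.exM (Def.exM (Def.meq hq.lift.lift (((MTm.var (some none)).E ht hg.lift.lift).add
        ((MTm.var none).aeval ht f)))))
  | succ k ih =>
    exact Def.exE (Def.exM ((def_ch ht hg.lift.lift (.var (some none)) (.const w) (.var none)).and
      (ih hg.lift.lift
        (hp.lift.lift.sub (((MTm.var none).aeval ht (X ^ k)).of_eq fun _ => by simp))
        (hq.lift.lift.sub (((MTm.var none).aeval ht ((k : ℤ[X]) * X ^ k)).of_eq fun _ => by simp)))))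

theorem def_phi (f : ℤ[X]) (w : A) (k : ℕ) {α : Type} {g a c : (α → ℤ × A) → ℤ}
    (hg : ETm g) (ha : ETm a) (hc : ETm c) :
    Def T fun v => Phi t (aeval (t : R) f) w k (g v) (a v) (c v) :=
  have hg := hg.lift.lift.lift
  have ha := ha.lift.lift.lift
  have hc := hc.lift.lift.lift
  Def.exE (Def.exM (Def.exM
    ((def_ch ht hg (.var (some (some none))) (.const w) (.var (some none))).and
    ((def_ch ht hg (.var (some (some none))) (.var (some none)) (.var none)).and
    ((def_dl ht f w k hg ((MTm.const w).zpow ht ha) ((MTm.var (some none)).zpow ht ha)).and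
    (def_dl ht f w k hg ((MTm.const w).zpow ht hc) ((MTm.var none).zpow ht hc)))))))

end Formulas

end Pool.Agent.Lib.MP_db697d_lc
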